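import Pool.Agent.Lib.MP_0da313_nt.BV.BvL

set_option autoImplicit false

/-!
A lower bound, from the Bombieri-Vinogradov estimate of the package, for the average over the
primes `p` of a dyadic-type block of the number of divisors `5 y - 1` of `p + 1`.
-/

namespace Pool.Agent.Lib.MP_9aa437_nt

open Finset ArithmeticFunction Filter
open Pool.Agent.BVall Pool.Agent.MP89da58

/-- the `y`'s with `5 y - 1 ∣ p + 1`, `t + 5 y < p` -/
def Wt (t p : ℕ) : Finset ℕ := (Icc 1 p).filter (fun y => 5 * y - 1 ∣ p + 1 ∧ t + 5 * y < p)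

/-- the primes of a block -/
noncomputable def BP (X : ℝ) : Finset ℕ :=
  (Icc 1 ⌊3 * X⌋₊).filter (fun p => p.Prime ∧ X / Real.exp 1 < p)

/-- the residues `q - 1` -/
def aq (q : ℕ) : ℕ := if q = 0 then 1 else q - 1

lemma aq_coprime (q : ℕ) : (aq q).Coprime q := by
  unfold aq
  split_ifs with h
  · subst h; simp
  · exact (Nat.coprime_self_sub_left (by omega)).2 (by simp) |>.symm.symm

lemma modEq_aq {n q : ℕ} (hq : 1 ≤ q) : n ≡ aq q [MOD q] ↔ q ∣ n + 1 := by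
  unfold aq
  rw [if_neg (by omega)]
  constructor
  · intro h
    have h2 : n + 1 ≡ q - 1 + 1 [MOD q] := h.add_right 1
    rw [Nat.sub_add_cancel hq] at h2
    exact (Nat.modEq_zero_iff_dvd).1 (h2.trans (by simp [Nat.ModEq]))
  · intro h
    have h1 : n + 1 ≡ q - 1 + 1 [MOD q] := by
      rw [Nat.sub_add_cancel hq]
      exact ((Nat.modEq_zero_iff_dvd).2 h).trans (by simp [Nat.ModEq])
    exact Nat.ModEq.add_right_cancel' 1 h1

/-- the moduli `q = 5 y - 1` -/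
def Sq (Q : ℕ) : Finset ℕ := (Icc 1 Q).filter (fun q => q % 5 = 4)

lemma sum_Sq_lower (Q : ℕ) : (1 / 5 : ℝ) * Real.log ((Q + 1 : ℝ) / 5) ≤ ∑ q ∈ Sq Q, (1 / q : ℝ) := by
  have h1 : ∑ y ∈ Icc 1 (Q / 5), (1 / ((5 * y - 1 : ℕ) : ℝ)) ≤ ∑ q ∈ Sq Q, (1 / q : ℝ) := by
    rw [← Finset.sum_image (f := fun q : ℕ => (1 / q : ℝ)) (g := fun y : ℕ => 5 * y - 1)
      (s := Icc 1 (Q / 5))]
    · refine Finset.sum_le_sum_of_subset_of_nonneg ?_ (fun _ _ _ => by positivity)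
      intro q hq
      simp only [Finset.mem_image, Finset.mem_Icc, Sq, Finset.mem_filter] at hq ⊢
      obtain ⟨y, hy, rfl⟩ := hq
      omega
    · intro a ha b hb h
      simp only [Finset.coe_Icc, Set.mem_Icc] at ha hb h
      omega
  refine le_trans ?_ h1
  have h2 : ∑ y ∈ Icc 1 (Q / 5), (1 / 5 : ℝ) * ((y : ℝ))⁻¹ ≤
      ∑ y ∈ Icc 1 (Q / 5), (1 / ((5 * y - 1 : ℕ) : ℝ)) := by
    refine Finset.sum_le_sum fun y hy => ?_
    rw [Finset.mem_Icc] at hy
    have h3 : (0 : ℝ) < ((5 * y - 1 : ℕ) : ℝ) := by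
      exact_mod_cast (by omega : 0 < 5 * y - 1)
    have h4 : ((5 * y - 1 : ℕ) : ℝ) ≤ 5 * y := by
      have : (5 * y - 1 : ℕ) ≤ 5 * y := by omega
      exact_mod_cast this
    have hy0 : (0 : ℝ) < y := by exact_mod_cast hy.1
    rw [← one_div, one_div_mul_one_div, one_div_le_one_div (by positivity) h3]
    exact h4
  refine le_trans ?_ h2
  rw [← Finset.mul_sum]
  have h5 := log_add_one_le_harmonic (Q / 5)
  rw [harmonic_eq_sum_Icc] at h5
  push_cast at h5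
  have h6 : Real.log ((Q + 1 : ℝ) / 5) ≤ Real.log (((Q / 5 : ℕ) : ℝ) + 1) := by
    apply Real.log_le_log (by positivity)
    rw [div_le_iff₀ (by norm_num)]
    have h7 : Q + 1 ≤ (Q / 5 + 1) * 5 := by omega
    have : ((Q + 1 : ℕ) : ℝ) ≤ (((Q / 5 + 1) * 5 : ℕ) : ℝ) := by exact_mod_cast h7
    push_cast at this
    linarith
  have h8 : Real.log (((Q / 5 : ℕ) : ℝ) + 1) ≤ ∑ i ∈ Icc 1 (Q / 5), ((i : ℝ))⁻¹ := h5
  nlinarith

end Pool.Agent.Lib.MP_9aa437_nt
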