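import Pool.Agent.Lib.MP_9aa437_nt.Block

set_option autoImplicit false

/-!
The block estimate: in every block `X / e < p ≤ 3 X` of large primes the sum of
`|{y : 5 y - 1 ∣ p + 1, t + 5 y < p}| / p` is at least a positive constant.
-/

namespace Pool.Agent.Lib.MP_9aa437_nt

open Finset ArithmeticFunction Filter
open Pool.Agent.BVall Pool.Agent.MP89da58

/-- number of moduli of `Sq Q` dividing `n + 1` -/
def kq (Q n : ℕ) : ℕ := ((Sq Q).filter (fun q => q ∣ n + 1)).card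

lemma kq_le (Q n : ℕ) : kq Q n ≤ Q := by
  unfold kq Sq
  refine (Finset.card_filter_le _ _).trans ((Finset.card_filter_le _ _).trans ?_)
  simp

lemma kq_le_Wt {Q n t : ℕ} (h : t + Q + 1 < n) : kq Q n ≤ (Wt t n).card := by
  unfold kq
  refine Finset.card_le_card_of_injOn (fun q => (q + 1) / 5) ?_ ?_
  · intro q hq
    simp only [Sq, Finset.coe_filter, Finset.mem_filter, Finset.mem_Icc, Set.mem_ofPred_eq] at hq
    obtain ⟨⟨⟨h1, h2⟩, h3⟩, h4⟩ := hq
    simp only [Wt, Finset.coe_filter, Finset.mem_Icc, Set.mem_ofPred_eq]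
    have h5 : 5 * ((q + 1) / 5) = q + 1 := by omega
    refine ⟨⟨by omega, by omega⟩, ?_, by omega⟩
    rw [h5, Nat.add_sub_cancel]
    exact h4
  · intro a ha b hb hab
    simp only [Sq, Finset.coe_filter, Finset.mem_filter, Finset.mem_Icc, Set.mem_ofPred_eq]
      at ha hb hab
    omega

lemma sum_psiAPL (X : ℝ) (Q : ℕ) :
    ∑ q ∈ Sq Q, psiAPL 1 X q (aq q) =
      ∑ n ∈ Icc 1 ⌊3 * X⌋₊, vonMangoldt n * OmL 1 X n * (kq Q n : ℝ) := by
  unfold psiAPL
  have h1 : ∀ q ∈ Sq Q, ∑ n ∈ (Icc 1 ⌊3 * X⌋₊).filter (fun n => n ≡ aq q [MOD q]),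
      vonMangoldt n * OmL 1 X n =
      ∑ n ∈ Icc 1 ⌊3 * X⌋₊, if q ∣ n + 1 then vonMangoldt n * OmL 1 X n else 0 := by
    intro q hq
    simp only [Sq, Finset.mem_filter, Finset.mem_Icc] at hq
    rw [Finset.sum_filter]
    refine Finset.sum_congr rfl fun n _ => ?_
    simp only [modEq_aq hq.1.1]
  rw [Finset.sum_congr rfl h1, Finset.sum_comm]
  refine Finset.sum_congr rfl fun n _ => ?_
  rw [← Finset.sum_filter, Finset.sum_const, nsmul_eq_mul, kq, mul_comm]

lemma OmL_zero {X : ℝ} (hX : 0 < X) {n : ℕ} (hn : 0 < n) (h : (n : ℝ) ≤ X / Real.exp 1) :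
    OmL 1 X n = 0 := by
  have hn' : (0 : ℝ) < n := Nat.cast_pos.2 hn
  have h1 : Real.log ((n : ℝ) / X) ≤ -1 := by
    have h2 : (n : ℝ) / X ≤ Real.exp (-1) := by
      rw [div_le_iff₀ hX, Real.exp_neg, mul_comm, ← div_eq_mul_inv]
      exact h
    calc Real.log ((n : ℝ) / X) ≤ Real.log (Real.exp (-1)) := Real.log_le_log (by positivity) h2
      _ = -1 := Real.log_exp _
  unfold OmL tri
  rw [max_eq_left, mul_zero]
  rw [one_mul]
  have : |Real.log ((n : ℝ) / X)| = -Real.log ((n : ℝ) / X) := abs_of_nonpos (by linarith)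
  rw [this]
  linarith

lemma upper_side {X : ℝ} (t Q : ℕ) (hX : 1 ≤ X) (hL : 1 ≤ Real.log X)
    (hQ : (t : ℝ) + Q + 1 < X / Real.exp 1) :
    ∑ q ∈ Sq Q, psiAPL 1 X q (aq q) ≤
      24 * X * Real.log (3 * X) * ∑ p ∈ BP X, ((Wt t p).card : ℝ) / p +
        8 * Q * (2 * √(3 * X) * Real.log (3 * X)) := by
  classical
  have hX0 : 0 < X := by linarith
  rw [sum_psiAPL]
  have hlog3 : 0 ≤ Real.log (3 * X) := Real.log_nonneg (by linarith)
  -- pointwise bound
  have h1 : ∀ n ∈ Icc 1 ⌊3 * X⌋₊, vonMangoldt n * OmL 1 X n * (kq Q n : ℝ) ≤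
      (if n.Prime ∧ X / Real.exp 1 < n then Real.log n * 8 * ((Wt t n).card : ℝ) else 0) +
      (if ¬ n.Prime then 8 * Q * vonMangoldt n else 0) := by
    intro n hn
    rw [Finset.mem_Icc] at hn
    have hO := OmL_le (lam := 1) le_rfl hX0.le hL n
    have hO0 := OmL_nonneg 1 hX0.le n
    have hk : (kq Q n : ℝ) ≤ Q := by exact_mod_cast kq_le Q n
    have hk0 : (0 : ℝ) ≤ kq Q n := Nat.cast_nonneg _
    have hΛ : 0 ≤ vonMangoldt n := vonMangoldt_nonneg
    by_cases hp : n.Prime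
    · rw [if_neg (not_not.2 hp), add_zero]
      by_cases hb : X / Real.exp 1 < n
      · rw [if_pos ⟨hp, hb⟩, vonMangoldt_apply_prime hp]
        have hlt : t + Q + 1 < n := by
          have : (t : ℝ) + Q + 1 < n := hQ.trans hb
          exact_mod_cast this
        have hk2 : (kq Q n : ℝ) ≤ ((Wt t n).card : ℝ) := by exact_mod_cast kq_le_Wt hlt
        have hlogn : 0 ≤ Real.log n := Real.log_natCast_nonneg n
        gcongr
      · rw [if_neg (fun h => hb h.2), OmL_zero hX0 hn.1 (not_lt.1 hb)]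
        simp
    · rw [if_pos hp, if_neg (fun h => hp h.1), zero_add]
      calc vonMangoldt n * OmL 1 X n * (kq Q n : ℝ) ≤ vonMangoldt n * 8 * Q := by gcongr
        _ = 8 * Q * vonMangoldt n := by ring
  refine (Finset.sum_le_sum h1).trans ?_
  rw [Finset.sum_add_distrib, ← Finset.sum_filter, ← Finset.sum_filter, ← Finset.mul_sum]
  have h2 : ∑ n ∈ (Icc 1 ⌊3 * X⌋₊).filter (fun n => ¬ n.Prime), vonMangoldt n ≤
      2 * √(3 * X) * Real.log (3 * X) := by
    have h3 := Chebyshev.psi_sub_theta_le (x := 3 * X) (by linarith)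
    rw [Chebyshev.psi_sub_theta_eq_sum_not_prime] at h3
    exact h3
  have h4 : ∑ n ∈ (Icc 1 ⌊3 * X⌋₊).filter (fun n : ℕ => n.Prime ∧ X / Real.exp 1 < n),
      Real.log n * 8 * ((Wt t n).card : ℝ) ≤
      24 * X * Real.log (3 * X) * ∑ p ∈ BP X, ((Wt t p).card : ℝ) / p := by
    rw [Finset.mul_sum]
    refine Finset.sum_le_sum fun p hp => ?_
    rw [Finset.mem_filter, Finset.mem_Icc] at hp
    have hp0 : (0 : ℝ) < p := by exact_mod_cast hp.2.1.pos
    have hp3 : (p : ℝ) ≤ 3 * X :=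
      (Nat.cast_le.2 hp.1.2).trans (Nat.floor_le (by positivity))
    have hlp : Real.log p ≤ Real.log (3 * X) := Real.log_le_log hp0 hp3
    have hlp0 : 0 ≤ Real.log p := Real.log_natCast_nonneg p
    have e : ((Wt t p).card : ℝ) = ((Wt t p).card : ℝ) / p * p := by field_simp
    have hc : 0 ≤ ((Wt t p).card : ℝ) / p := div_nonneg (Nat.cast_nonneg _) hp0.le
    generalize ((Wt t p).card : ℝ) / p = w at e hc
    rw [e]
    calc Real.log p * 8 * (w * p) ≤ Real.log (3 * X) * 8 * (w * (3 * X)) := by gcongr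
      _ = _ := by ring
  have hQ0 : (0 : ℝ) ≤ Q := Nat.cast_nonneg _
  gcongr

lemma lower_side {X : ℝ} {Q : ℕ} (hX : 0 < X) (hpsi : X / 24 ≤ psiXL 1 X)
    (hbv : ∑ q ∈ Icc 1 Q, |psiAPL 1 X q (aq q) - psiXL 1 X / (Nat.totient q : ℝ)|
      ≤ X / Real.log X) :
    X / 24 * ∑ q ∈ Sq Q, (1 / q : ℝ) - X / Real.log X ≤ ∑ q ∈ Sq Q, psiAPL 1 X q (aq q) := by
  have h1 : ∀ q ∈ Sq Q, X / 24 * (1 / q : ℝ) -
      |psiAPL 1 X q (aq q) - psiXL 1 X / (Nat.totient q : ℝ)| ≤ psiAPL 1 X q (aq q) := by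
    intro q hq
    simp only [Sq, Finset.mem_filter, Finset.mem_Icc] at hq
    have hq0 : (0 : ℝ) < q := by exact_mod_cast hq.1.1
    have ht0 : (0 : ℝ) < (Nat.totient q : ℝ) := by exact_mod_cast Nat.totient_pos.2 hq.1.1
    have ht : (Nat.totient q : ℝ) ≤ q := by exact_mod_cast Nat.totient_le q
    have hps0 : 0 ≤ psiXL 1 X := by linarith
    have h2 : X / 24 * (1 / q : ℝ) ≤ psiXL 1 X / (Nat.totient q : ℝ) := by
      rw [mul_one_div]
      gcongr
    have h3 := neg_abs_le (psiAPL 1 X q (aq q) - psiXL 1 X / (Nat.totient q : ℝ))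
    linarith
  have h2 := Finset.sum_le_sum h1
  rw [Finset.sum_sub_distrib, ← Finset.mul_sum] at h2
  have h3 : ∑ q ∈ Sq Q, |psiAPL 1 X q (aq q) - psiXL 1 X / (Nat.totient q : ℝ)| ≤
      X / Real.log X := by
    refine le_trans ?_ hbv
    exact Finset.sum_le_sum_of_subset_of_nonneg (Finset.filter_subset _ _)
      (fun _ _ _ => abs_nonneg _)
  linarith

/-- the block estimate -/
theorem block_lower (t : ℕ) : ∀ᶠ X : ℝ in atTop,
    (1 / 1000000 : ℝ) ≤ ∑ p ∈ BP X, ((Wt t p).card : ℝ) / p := by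
  obtain ⟨X1, hbv⟩ := bvL (lam := 1) le_rfl 1
  have hlog := Real.tendsto_log_atTop
  have hpow : Tendsto (fun X : ℝ => X ^ (12 / 25 : ℝ)) atTop atTop :=
    tendsto_rpow_atTop (by norm_num)
  have e2 : ∀ᶠ X : ℝ in atTop, (t : ℝ) + 1 ≤ X ^ (1 / 50 : ℝ) :=
    (tendsto_rpow_atTop (by norm_num)).eventually_ge_atTop _
  filter_upwards [eventually_ge_atTop X1, psiXL_lower (lam := 1) le_rfl,
    hlog.eventually_ge_atTop 1000, hpow.eventually_ge_atTop (10 ^ 8), e2,
    eventually_ge_atTop (1 : ℝ)] with X hX1 hpsi hL hP hT hX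
  have hX0 : 0 < X := by linarith
  set L := Real.log X with hLdef
  set Q : ℕ := ⌊X ^ (1 / 50 : ℝ)⌋₊ with hQ
  set S := ∑ p ∈ BP X, ((Wt t p).card : ℝ) / p with hS
  have hpow0 : 0 ≤ X ^ (1 / 50 : ℝ) := Real.rpow_nonneg hX0.le _
  have hQ1 : (Q : ℝ) ≤ X ^ (1 / 50 : ℝ) := Nat.floor_le hpow0
  have hQ2 : X ^ (1 / 50 : ℝ) ≤ Q + 1 := (Nat.lt_floor_add_one _).le
  have hsplit : X = X ^ (1 / 50 : ℝ) * √X * X ^ (12 / 25 : ℝ) := by
    rw [Real.sqrt_eq_rpow, ← Real.rpow_add hX0, ← Real.rpow_add hX0]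
    norm_num
  have hsq1 : 1 ≤ √X := Real.one_le_sqrt.2 hX
  have hbig : 10 ^ 8 * (X ^ (1 / 50 : ℝ) * √X) ≤ X := by
    have h0 : 0 ≤ X ^ (1 / 50 : ℝ) * √X := by positivity
    calc 10 ^ 8 * (X ^ (1 / 50 : ℝ) * √X) ≤ X ^ (12 / 25 : ℝ) * (X ^ (1 / 50 : ℝ) * √X) := by
          gcongr
      _ = X := by rw [mul_comm]; exact hsplit.symm
  have hpi : 10 ^ 8 * X ^ (1 / 50 : ℝ) ≤ X := by
    refine le_trans ?_ hbig
    have : X ^ (1 / 50 : ℝ) * 1 ≤ X ^ (1 / 50 : ℝ) * √X := by gcongr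
    nlinarith
  have he : Real.exp 1 < 3 := by
    have := Real.exp_one_lt_d9
    linarith
  have hQe : (t : ℝ) + Q + 1 < X / Real.exp 1 := by
    rw [lt_div_iff₀ (Real.exp_pos 1)]
    have h1 : (t : ℝ) + Q + 1 ≤ 2 * X ^ (1 / 50 : ℝ) := by linarith
    have hpos : 0 < X ^ (1 / 50 : ℝ) := Real.rpow_pos_of_pos hX0 _
    calc ((t : ℝ) + Q + 1) * Real.exp 1 ≤ 2 * X ^ (1 / 50 : ℝ) * 3 := by gcongr
      _ < X := by nlinarith
  have hup := upper_side t Q hX (by linarith) hQe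
  have hpsi' : X / 24 ≤ psiXL 1 X := by rwa [mul_one] at hpsi
  have hlow := lower_side (Q := Q) hX0 hpsi' (by
    have := hbv X hX1 aq aq_coprime
    rwa [pow_one] at this)
  have hlog3 : Real.log (3 * X) ≤ 2 * L := by
    rw [Real.log_mul (by norm_num) hX0.ne']
    have : Real.log 3 ≤ 2 := by
      have := Real.log_le_sub_one_of_pos (show (0 : ℝ) < 3 by norm_num)
      linarith
    linarith
  have hlog30 : 0 ≤ Real.log (3 * X) := Real.log_nonneg (by linarith)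
  have hharm : L / 500 ≤ ∑ q ∈ Sq Q, (1 / q : ℝ) := by
    refine le_trans ?_ (sum_Sq_lower Q)
    have h1 : Real.log (X ^ (1 / 50 : ℝ) / 5) ≤ Real.log ((Q + 1 : ℝ) / 5) := by
      apply Real.log_le_log
      · have := Real.rpow_pos_of_pos hX0 (1 / 50 : ℝ)
        positivity
      · gcongr
    rw [Real.log_div (Real.rpow_pos_of_pos hX0 _).ne' (by norm_num), Real.log_rpow hX0] at h1
    have h5 : Real.log 5 ≤ 4 := by
      have := Real.log_le_sub_one_of_pos (show (0 : ℝ) < 5 by norm_num)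
      linarith
    linarith
  have hs3 : √(3 * X) ≤ 2 * √X := by
    rw [Real.sqrt_le_left (by positivity), mul_pow, Real.sq_sqrt hX0.le]
    linarith
  have hS0 : 0 ≤ S := Finset.sum_nonneg fun _ _ =>
    div_nonneg (Nat.cast_nonneg _) (Nat.cast_nonneg _)
  clear_value S
  have hXL : X / L ≤ X * L / 1000000 := by
    rw [div_le_div_iff₀ (by linarith) (by norm_num)]
    have : (1000000 : ℝ) ≤ L * L := by nlinarith
    nlinarith
  have hterm : 8 * (Q : ℝ) * (2 * √(3 * X) * Real.log (3 * X)) ≤ X * L / 1000000 := by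
    calc 8 * (Q : ℝ) * (2 * √(3 * X) * Real.log (3 * X))
        ≤ 8 * X ^ (1 / 50 : ℝ) * (2 * (2 * √X) * (2 * L)) := by gcongr
      _ = 64 * (X ^ (1 / 50 : ℝ) * √X) * L := by ring
      _ ≤ X * L / 1000000 := by
        have hL0 : 0 ≤ L := by linarith
        have : 64 * (X ^ (1 / 50 : ℝ) * √X) ≤ X / 1000000 := by linarith
        calc 64 * (X ^ (1 / 50 : ℝ) * √X) * L ≤ X / 1000000 * L := by gcongr
          _ = _ := by ring
  have hmain1 : X / 24 * (L / 500) ≤ X / 24 * ∑ q ∈ Sq Q, (1 / q : ℝ) := by gcongr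
  have hmain2 : 24 * X * Real.log (3 * X) * S ≤ 24 * X * (2 * L) * S := by gcongr
  have hfin : X * L * (1 / 12000 - 2 / 1000000) ≤ X * L * (48 * S) := by
    have : X * L * (48 * S) = 24 * X * (2 * L) * S := by ring
    rw [this]
    have h6 : X / 24 * (L / 500) = X * L * (1 / 12000) := by ring
    rw [← hS] at hup
    rw [← hLdef] at hlow
    have h7 : X * L * (1 / 12000 - 2 / 1000000) =
        X * L * (1 / 12000) - X * L / 1000000 - X * L / 1000000 := by ring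
    rw [h7]
    linarith
  have hXL0 : 0 < X * L := by
    have : 0 < L := by linarith
    positivity
  have := le_of_mul_le_mul_left hfin hXL0
  linarith

end Pool.Agent.Lib.MP_9aa437_nt
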