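import Mathlib

set_option autoImplicit false

namespace Pool.Agent.Lib.MP_9aa437_nt

open Finset

/-! ### Truncated products -/

/-- the elementary symmetric function of degree `k` of the values of `g` on `P` -/
noncomputable def esym (g : ℕ → ℝ) (P : Finset ℕ) (k : ℕ) : ℝ :=
  ∑ D ∈ P.powersetCard k, ∏ p ∈ D, g p

lemma esym_zero (g : ℕ → ℝ) (P : Finset ℕ) : esym g P 0 = 1 := by
  simp [esym]

lemma esym_empty_succ (g : ℕ → ℝ) (k : ℕ) : esym g ∅ (k + 1) = 0 := by
  unfold esym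
  rw [Finset.powersetCard_eq_empty.mpr (by simp), Finset.sum_empty]

lemma esym_insert (g : ℕ → ℝ) (P : Finset ℕ) (a : ℕ) (ha : a ∉ P) (k : ℕ) :
    esym g (insert a P) (k + 1) = esym g P (k + 1) + g a * esym g P k := by
  unfold esym
  rw [Finset.powersetCard_succ_insert ha, Finset.sum_union, Finset.mul_sum]
  · congr 1
    rw [Finset.sum_image]
    · refine Finset.sum_congr rfl fun D hD => ?_
      rw [Finset.prod_insert]
      exact fun h => ha ((Finset.mem_powersetCard.mp hD).1 h)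
    · intro D hD E hE h
      have hD' : a ∉ D := fun h => ha ((Finset.mem_powersetCard.mp hD).1 h)
      have hE' : a ∉ E := fun h => ha ((Finset.mem_powersetCard.mp hE).1 h)
      have := congrArg (fun s => s.erase a) h
      simpa [Finset.erase_insert hD', Finset.erase_insert hE'] using this
  · rw [Finset.disjoint_left]
    intro D hD hD2
    rw [Finset.mem_image] at hD2
    obtain ⟨E, _, rfl⟩ := hD2
    exact ha ((Finset.mem_powersetCard.mp hD).1 (Finset.mem_insert_self _ _))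

lemma esym_nonneg {g : ℕ → ℝ} (hg : ∀ p, 0 ≤ g p) (P : Finset ℕ) (k : ℕ) : 0 ≤ esym g P k :=
  Finset.sum_nonneg fun _ _ => Finset.prod_nonneg fun p _ => hg p

lemma pow_succ_bound {T g : ℝ} (hT : 0 ≤ T) (hg : 0 ≤ g) (k : ℕ) :
    T ^ (k + 1) + (k + 1) * g * T ^ k ≤ (T + g) ^ (k + 1) := by
  induction k with
  | zero => simp
  | succ k ih =>
    have h1 : (T + g) ^ (k + 1 + 1) = (T + g) ^ (k + 1) * (T + g) := pow_succ _ _
    rw [h1]
    have h2 : (T ^ (k + 1) + (k + 1) * g * T ^ k) * (T + g) ≤ (T + g) ^ (k + 1) * (T + g) := by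
      gcongr
    have h3 : 0 ≤ (k + 1) * g * T ^ k * g := by positivity
    push_cast
    calc T ^ (k + 1 + 1) + (↑k + 1 + 1) * g * T ^ (k + 1)
        ≤ (T ^ (k + 1) + (k + 1) * g * T ^ k) * (T + g) := by
          have e : (T ^ (k + 1) + (k + 1) * g * T ^ k) * (T + g) =
            T ^ (k + 1 + 1) + (↑k + 1 + 1) * g * T ^ (k + 1) + (k + 1) * g * T ^ k * g := by ring
          rw [e]; linarith
      _ ≤ _ := h2

lemma esym_le {g : ℕ → ℝ} (hg : ∀ p, 0 ≤ g p) (P : Finset ℕ) :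
    ∀ k : ℕ, (k.factorial : ℝ) * esym g P k ≤ (∑ p ∈ P, g p) ^ k := by
  induction P using Finset.induction_on with
  | empty =>
    intro k
    cases k with
    | zero => simp [esym_zero]
    | succ k => rw [esym_empty_succ]; simp
  | insert a P ha ih =>
    intro k
    cases k with
    | zero => simp [esym_zero]
    | succ k =>
      rw [esym_insert g P a ha, Finset.sum_insert ha, add_comm (g a)]
      have hT : 0 ≤ ∑ p ∈ P, g p := Finset.sum_nonneg fun p _ => hg p
      refine le_trans ?_ (pow_succ_bound hT (hg a) k)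
      have h1 := ih (k + 1)
      have h2 := ih k
      have e : ((k + 1).factorial : ℝ) = (k + 1) * (k.factorial : ℝ) := by
        rw [Nat.factorial_succ]; push_cast; ring
      calc ((k + 1).factorial : ℝ) * (esym g P (k + 1) + g a * esym g P k)
          = ((k + 1).factorial : ℝ) * esym g P (k + 1) +
            (k + 1) * g a * ((k.factorial : ℝ) * esym g P k) := by rw [e]; ring
        _ ≤ (∑ p ∈ P, g p) ^ (k + 1) + (k + 1) * g a * (∑ p ∈ P, g p) ^ k := by
          have := hg a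
          gcongr

/-- the truncated alternating sum of elementary symmetric functions -/
noncomputable def trunc (g : ℕ → ℝ) (P : Finset ℕ) (r : ℕ) : ℝ :=
  ∑ k ∈ Finset.range r, (-1) ^ k * esym g P k

lemma trunc_insert (g : ℕ → ℝ) (P : Finset ℕ) (a : ℕ) (ha : a ∉ P) (r : ℕ) :
    trunc g (insert a P) (r + 1) = trunc g P (r + 1) - g a * trunc g P r := by
  unfold trunc
  rw [Finset.sum_range_succ', Finset.sum_range_succ' (n := r), Finset.mul_sum, esym_zero, esym_zero]
  have : ∑ k ∈ Finset.range r, (-1 : ℝ) ^ (k + 1) * esym g (insert a P) (k + 1) =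
      ∑ k ∈ Finset.range r, (-1 : ℝ) ^ (k + 1) * esym g P (k + 1) -
        ∑ k ∈ Finset.range r, g a * ((-1 : ℝ) ^ k * esym g P k) := by
    rw [← Finset.sum_sub_distrib]
    refine Finset.sum_congr rfl fun k _ => ?_
    rw [esym_insert g P a ha]; ring
  rw [this]; ring

/-- truncation error -/
lemma trunc_error {g : ℕ → ℝ} (hg : ∀ p, 0 ≤ g p) (hg1 : ∀ p, g p ≤ 1) (P : Finset ℕ) :
    ∀ r : ℕ, |trunc g P r - ∏ p ∈ P, (1 - g p)| ≤ esym g P r := by
  induction P using Finset.induction_on with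
  | empty =>
    intro r
    cases r with
    | zero => simp [trunc, esym_zero]
    | succ r =>
      have : trunc g ∅ (r + 1) = 1 := by
        unfold trunc
        rw [Finset.sum_range_succ']
        simp [esym_zero, esym_empty_succ]
      rw [this, esym_empty_succ]; simp
  | insert a P ha ih =>
    intro r
    rw [Finset.prod_insert ha]
    cases r with
    | zero =>
      rw [esym_zero]
      have h0 : trunc g (insert a P) 0 = 0 := by simp [trunc]
      rw [h0, zero_sub, abs_neg]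
      have h1 : 0 ≤ ∏ p ∈ P, (1 - g p) := Finset.prod_nonneg fun p _ => by linarith [hg1 p]
      have h2 : ∏ p ∈ P, (1 - g p) ≤ 1 := Finset.prod_le_one (fun p _ => by linarith [hg1 p])
        (fun p _ => by linarith [hg p])
      rw [abs_of_nonneg (mul_nonneg (by linarith [hg1 a]) h1)]
      calc (1 - g a) * ∏ p ∈ P, (1 - g p) ≤ 1 * 1 :=
            mul_le_mul (by linarith [hg a]) h2 h1 (by norm_num)
        _ = 1 := by norm_num
    | succ r =>
      rw [trunc_insert g P a ha, esym_insert g P a ha]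
      have h1 := ih (r + 1)
      have h2 := ih r
      have e : trunc g P (r + 1) - g a * trunc g P r - (1 - g a) * ∏ p ∈ P, (1 - g p) =
        (trunc g P (r + 1) - ∏ p ∈ P, (1 - g p)) - g a * (trunc g P r - ∏ p ∈ P, (1 - g p)) := by
        ring
      rw [e]
      calc _ ≤ |trunc g P (r + 1) - ∏ p ∈ P, (1 - g p)| +
            |g a * (trunc g P r - ∏ p ∈ P, (1 - g p))| := abs_sub _ _
        _ = |trunc g P (r + 1) - ∏ p ∈ P, (1 - g p)| +
            g a * |trunc g P r - ∏ p ∈ P, (1 - g p)| := by rw [abs_mul, abs_of_nonneg (hg a)]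
        _ ≤ _ := by
          have := hg a
          gcongr

lemma prod_le_exp {g : ℕ → ℝ} (hg1 : ∀ p, g p ≤ 1) (P : Finset ℕ) :
    ∏ p ∈ P, (1 - g p) ≤ Real.exp (-∑ p ∈ P, g p) := by
  rw [← Finset.sum_neg_distrib, Real.exp_sum]
  refine Finset.prod_le_prod (fun p _ => by linarith [hg1 p]) (fun p _ => ?_)
  have := Real.add_one_le_exp (-g p)
  linarith

/-! ### The pointwise inequality -/

lemma pointwise (P : Finset ℕ) (B : Finset ℕ) (hB : B ⊆ P) (r : ℕ) (hr : Even r) :
    (if B = ∅ then (1 : ℝ) else 0) ≤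
      ∑ k ∈ Finset.range (r + 1), (-1) ^ k * ∑ D ∈ P.powersetCard k, (if D ⊆ B then (1 : ℝ) else 0) := by
  have h1 : ∀ k, ∑ D ∈ P.powersetCard k, (if D ⊆ B then (1 : ℝ) else 0) = (B.card.choose k : ℝ) := by
    intro k
    rw [← Finset.sum_filter, Finset.sum_const, nsmul_eq_mul, mul_one]
    congr 1
    rw [← Finset.card_powersetCard]
    congr 1
    ext D
    simp only [Finset.mem_filter, Finset.mem_powersetCard]
    constructor
    · rintro ⟨⟨_, h2⟩, h3⟩
      exact ⟨h3, h2⟩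
    · rintro ⟨h2, h3⟩
      exact ⟨⟨h2.trans hB, h3⟩, h2⟩
  simp_rw [h1]
  by_cases hBe : B = ∅
  · subst hBe
    rw [if_pos rfl, Finset.card_empty, Finset.sum_range_succ']
    simp
  · rw [if_neg hBe]
    have hc : 0 < B.card := Finset.card_pos.mpr (Finset.nonempty_iff_ne_empty.mpr hBe)
    obtain ⟨n, hn⟩ : ∃ n, B.card = n + 1 := ⟨B.card - 1, by omega⟩
    rw [hn]
    have h2 := @Int.alternating_sum_range_choose_eq_choose n r
    have h3 : ((∑ i ∈ Finset.range (r + 1), (-1 : ℤ) ^ i * ((n + 1).choose i : ℤ) : ℤ) : ℝ) =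
        ((-1 : ℤ) ^ r * (n.choose r : ℤ) : ℤ) := by rw [h2]
    push_cast at h3
    rw [h3, hr.neg_one_pow]
    positivity

/-! ### The Chinese remainder count -/

/-- For distinct primes, the integers whose residues mod each `p ∈ D` lie in `Ω p` are exactly
the integers lying in a set of `∏ |Ω p|` residue classes mod `∏ p`. -/
lemma crt_classes (Ω : ℕ → Finset ℕ) (D : Finset ℕ) (hD : ∀ p ∈ D, p.Prime)
    (hΩ : ∀ p ∈ D, ∀ u ∈ Ω p, u < p) :
    ∃ R : Finset ℕ, R.card = ∏ p ∈ D, (Ω p).card ∧ (∀ u ∈ R, u < ∏ p ∈ D, p) ∧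
      ∀ l : ℕ, (∀ p ∈ D, l % p ∈ Ω p) ↔ l % (∏ p ∈ D, p) ∈ R := by
  induction D using Finset.induction_on with
  | empty =>
    refine ⟨{0}, by simp, by simp, fun l => ?_⟩
    simp [Nat.mod_one]
  | insert a D ha ih =>
    obtain ⟨R, hR1, hR2, hR3⟩ := ih (fun p hp => hD p (Finset.mem_insert_of_mem hp))
      (fun p hp => hΩ p (Finset.mem_insert_of_mem hp))
    have hap : a.Prime := hD a (Finset.mem_insert_self _ _)
    set Q := ∏ p ∈ D, p with hQ
    have hQ0 : 0 < Q := Finset.prod_pos fun p hp => (hD p (Finset.mem_insert_of_mem hp)).pos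
    have co : Nat.Coprime a Q := by
      rw [hQ]
      refine Nat.Coprime.prod_right fun p hp => ?_
      have hp' := hD p (Finset.mem_insert_of_mem hp)
      rw [Nat.coprime_primes hap hp']
      rintro rfl
      exact ha hp
    let φ : ℕ × ℕ → ℕ := fun uv => (Nat.chineseRemainder co uv.1 uv.2 : ℕ)
    have hφ1 : ∀ u ∈ Ω a, ∀ v ∈ R, φ (u, v) % a = u := by
      intro u hu v hv
      have h1 : φ (u, v) ≡ u [MOD a] := (Nat.chineseRemainder co u v).2.1
      have h2 : u < a := hΩ a (Finset.mem_insert_self _ _) u hu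
      rw [Nat.ModEq, Nat.mod_eq_of_lt h2] at h1
      exact h1
    have hφ2 : ∀ u ∈ Ω a, ∀ v ∈ R, φ (u, v) % Q = v := by
      intro u hu v hv
      have h1 : φ (u, v) ≡ v [MOD Q] := (Nat.chineseRemainder co u v).2.2
      rw [Nat.ModEq, Nat.mod_eq_of_lt (hR2 v hv)] at h1
      exact h1
    refine ⟨(Ω a ×ˢ R).image φ, ?_, ?_, fun l => ?_⟩
    · rw [Finset.card_image_of_injOn, Finset.card_product, Finset.prod_insert ha, hR1]
      rintro ⟨u, v⟩ huv ⟨u', v'⟩ huv' h
      simp only [Finset.coe_product, Set.mem_prod, Finset.mem_coe] at huv huv'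
      have h1 := hφ1 u huv.1 v huv.2
      have h2 := hφ2 u huv.1 v huv.2
      have h1' := hφ1 u' huv'.1 v' huv'.2
      have h2' := hφ2 u' huv'.1 v' huv'.2
      have h' : φ (u, v) = φ (u', v') := h
      rw [h'] at h1 h2
      rw [Prod.mk.injEq]
      exact ⟨by rw [← h1, h1'], by rw [← h2, h2']⟩
    · intro w hw
      rw [Finset.mem_image] at hw
      obtain ⟨⟨u, v⟩, _, rfl⟩ := hw
      rw [Finset.prod_insert ha]
      exact Nat.chineseRemainder_lt_mul co u v hap.ne_zero hQ0.ne'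
    · rw [Finset.prod_insert ha]
      have hmod1 : l % (a * Q) % a = l % a := Nat.mod_mul_right_mod l a Q
      have hmod2 : l % (a * Q) % Q = l % Q := Nat.mod_mul_left_mod l a Q
      constructor
      · intro h
        have hla := h a (Finset.mem_insert_self _ _)
        have hlR := (hR3 l).mp fun p hp => h p (Finset.mem_insert_of_mem hp)
        rw [Finset.mem_image]
        refine ⟨(l % a, l % Q), Finset.mem_product.mpr ⟨hla, hlR⟩, ?_⟩
        have h1 : l % (a * Q) ≡ l % a [MOD a] := by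
          rw [Nat.ModEq, hmod1, Nat.mod_mod]
        have h2 : l % (a * Q) ≡ l % Q [MOD Q] := by
          rw [Nat.ModEq, hmod2, Nat.mod_mod]
        have h3 := Nat.chineseRemainder_modEq_unique co h1 h2
        have h4 : φ (l % a, l % Q) < a * Q :=
          Nat.chineseRemainder_lt_mul co _ _ hap.ne_zero hQ0.ne'
        have h5 : l % (a * Q) < a * Q := Nat.mod_lt _ (Nat.mul_pos hap.pos hQ0)
        rw [Nat.ModEq, Nat.mod_eq_of_lt h5, Nat.mod_eq_of_lt h4] at h3
        exact h3.symm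
      · intro h
        rw [Finset.mem_image] at h
        obtain ⟨⟨u, v⟩, huv, h⟩ := h
        rw [Finset.mem_product] at huv
        intro p hp
        rw [Finset.mem_insert] at hp
        have e1 : l % a = u := by rw [← hmod1, ← h]; exact hφ1 u huv.1 v huv.2
        have e2 : l % Q = v := by rw [← hmod2, ← h]; exact hφ2 u huv.1 v huv.2
        rcases hp with rfl | hp
        · rw [e1]; exact huv.1
        · exact (hR3 l).mpr (by rw [e2]; exact huv.2) p hp

/-- the number of integers in `[1, X]` in one residue class -/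
lemma count_class (X Q u : ℕ) (hQ : 0 < Q) (hu : u < Q) :
    |(((Finset.Ioc 0 X).filter (fun l => l % Q = u)).card : ℝ) - X / Q| ≤ 1 := by
  have h := Nat.Ioc_filter_modEq_card 0 X hQ u
  have e : (Finset.Ioc 0 X).filter (fun l => l % Q = u) =
      (Finset.Ioc 0 X).filter (fun l => l ≡ u [MOD Q]) := by
    refine Finset.filter_congr fun l _ => ?_
    rw [Nat.ModEq, Nat.mod_eq_of_lt hu]
  rw [e]
  have hQ' : (0 : ℝ) < Q := by exact_mod_cast hQ
  have h1 : ((((Finset.Ioc 0 X).filter (fun l => l ≡ u [MOD Q])).card : ℤ) : ℚ) =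
      ((max (⌊((X : ℚ) - u) / Q⌋ - ⌊((0 : ℕ) - (u : ℚ)) / Q⌋) 0 : ℤ) : ℚ) := by
    exact_mod_cast h
  have h2 : (((Finset.Ioc 0 X).filter (fun l => l ≡ u [MOD Q])).card : ℚ) - X / Q ≤ 1 ∧
      -1 ≤ (((Finset.Ioc 0 X).filter (fun l => l ≡ u [MOD Q])).card : ℚ) - X / Q := by
    have hQq : (0 : ℚ) < Q := by exact_mod_cast hQ
    have hb : (((Finset.Ioc 0 X).filter (fun l => l ≡ u [MOD Q])).card : ℚ) =
      ((max (⌊((X : ℚ) - u) / Q⌋ - ⌊((0 : ℕ) - (u : ℚ)) / Q⌋) 0 : ℤ) : ℚ) := by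
      rw [← h1]; push_cast; ring
    rw [hb]
    push_cast
    have f1 := Int.floor_le (((X : ℚ) - u) / Q)
    have f2 := Int.lt_floor_add_one (((X : ℚ) - u) / Q)
    have g1 := Int.floor_le ((0 - (u : ℚ)) / Q)
    have g2 := Int.lt_floor_add_one ((0 - (u : ℚ)) / Q)
    have e2 : ((X : ℚ) - u) / Q = X / Q + (0 - (u : ℚ)) / Q := by field_simp; ring
    have hX : (0 : ℚ) ≤ X / Q := by positivity
    constructor
    · rcases le_total ((⌊((X : ℚ) - u) / Q⌋ : ℚ) - (⌊(0 - (u : ℚ)) / Q⌋ : ℚ)) 0 with hh | hh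
      · rw [max_eq_right hh]; linarith
      · rw [max_eq_left hh]; linarith
    · have := le_max_left ((⌊((X : ℚ) - u) / Q⌋ : ℚ) - (⌊(0 - (u : ℚ)) / Q⌋ : ℚ)) 0
      linarith
  rw [abs_le]
  constructor
  · have := h2.2
    have h3 : ((-1 : ℚ) : ℝ) ≤ (((((Finset.Ioc 0 X).filter (fun l => l ≡ u [MOD Q])).card : ℚ) - X / Q : ℚ) : ℝ) := by
      exact_mod_cast this
    push_cast at h3
    exact h3
  · have := h2.1
    have h3 : (((((Finset.Ioc 0 X).filter (fun l => l ≡ u [MOD Q])).card : ℚ) - X / Q : ℚ) : ℝ) ≤ ((1 : ℚ) : ℝ) := by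
      exact_mod_cast this
    push_cast at h3
    exact h3

/-- the number of integers in `[1, X]` with residues mod each `p ∈ D` in `Ω p` -/
lemma count_D (X : ℕ) (Ω : ℕ → Finset ℕ) (D : Finset ℕ) (hD : ∀ p ∈ D, p.Prime)
    (hΩ : ∀ p ∈ D, ∀ u ∈ Ω p, u < p) :
    |(((Finset.Ioc 0 X).filter (fun l => ∀ p ∈ D, l % p ∈ Ω p)).card : ℝ) -
      X * ∏ p ∈ D, ((Ω p).card / p : ℝ)| ≤ ∏ p ∈ D, ((Ω p).card : ℝ) := by
  obtain ⟨R, hR1, hR2, hR3⟩ := crt_classes Ω D hD hΩ
  set Q := ∏ p ∈ D, p with hQ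
  have hQ0 : 0 < Q := Finset.prod_pos fun p hp => (hD p hp).pos
  have e1 : (Finset.Ioc 0 X).filter (fun l => ∀ p ∈ D, l % p ∈ Ω p) =
      (Finset.Ioc 0 X).filter (fun l => l % Q ∈ R) :=
    Finset.filter_congr fun l _ => hR3 l
  have e2 : ((Finset.Ioc 0 X).filter (fun l => l % Q ∈ R)).card =
      ∑ u ∈ R, ((Finset.Ioc 0 X).filter (fun l => l % Q = u)).card := by
    rw [Finset.card_eq_sum_card_fiberwise (f := fun l => l % Q) (t := R)]
    · refine Finset.sum_congr rfl fun u hu => ?_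
      congr 1
      ext l
      simp only [Finset.mem_filter]
      constructor
      · rintro ⟨⟨h1, _⟩, h2⟩
        exact ⟨h1, h2⟩
      · rintro ⟨h1, h2⟩
        exact ⟨⟨h1, by rw [h2]; exact hu⟩, h2⟩
    · intro l hl
      exact (Finset.mem_filter.mp (Finset.mem_coe.mp hl)).2
  rw [e1, e2]
  have e3 : (X : ℝ) * ∏ p ∈ D, ((Ω p).card / p : ℝ) = ∑ u ∈ R, (X / Q : ℝ) := by
    rw [Finset.sum_const, hR1, Finset.prod_div_distrib, nsmul_eq_mul, hQ]
    push_cast
    ring
  rw [e3]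
  push_cast
  rw [← Finset.sum_sub_distrib]
  calc _ ≤ ∑ u ∈ R, |(((Finset.Ioc 0 X).filter (fun l => l % Q = u)).card : ℝ) - X / Q| :=
        Finset.abs_sum_le_sum_abs _ _
    _ ≤ ∑ u ∈ R, (1 : ℝ) := Finset.sum_le_sum fun u hu => count_class X Q u hQ0 (hR2 u hu)
    _ = _ := by rw [Finset.sum_const, hR1, nsmul_eq_mul, mul_one]; push_cast; rfl

/-- **Brun's pure sieve** (upper bound). -/
theorem brun (X : ℕ) (Ω : ℕ → Finset ℕ) (P : Finset ℕ) (hP : ∀ p ∈ P, p.Prime)
    (hΩ : ∀ p ∈ P, ∀ u ∈ Ω p, u < p) (r : ℕ) (hr : Even r) :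
    (((Finset.Ioc 0 X).filter (fun l => ∀ p ∈ P, l % p ∉ Ω p)).card : ℝ) ≤
      X * (Real.exp (-∑ p ∈ P, ((Ω p).card / p : ℝ)) +
        (∑ p ∈ P, ((Ω p).card / p : ℝ)) ^ (r + 1) / ((r + 1).factorial : ℝ)) +
      (1 + ∑ p ∈ P, ((Ω p).card : ℝ)) ^ r := by
  classical
  -- replace `Ω` by a function with junk-free values
  set g : ℕ → ℝ := fun p => if p ∈ P then ((Ω p).card / p : ℝ) else 0 with hg
  set w : ℕ → ℝ := fun p => if p ∈ P then ((Ω p).card : ℝ) else 0 with hw
  have hg0 : ∀ p, 0 ≤ g p := fun p => by rw [hg]; dsimp only; split_ifs <;> positivity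
  have hw0 : ∀ p, 0 ≤ w p := fun p => by rw [hw]; dsimp only; split_ifs <;> positivity
  have hcard : ∀ p ∈ P, (Ω p).card ≤ p := by
    intro p hp
    calc (Ω p).card ≤ (Finset.range p).card :=
          Finset.card_le_card fun u hu => Finset.mem_range.mpr (hΩ p hp u hu)
      _ = p := Finset.card_range p
  have hg1 : ∀ p, g p ≤ 1 := fun p => by
    rw [hg]; dsimp only
    split_ifs with h
    · have hp : (0 : ℝ) < p := by exact_mod_cast (hP p h).pos
      rw [div_le_one hp]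
      exact_mod_cast hcard p h
    · norm_num
  have hsumg : ∑ p ∈ P, ((Ω p).card / p : ℝ) = ∑ p ∈ P, g p :=
    Finset.sum_congr rfl fun p hp => by rw [hg]; dsimp only; rw [if_pos hp]
  have hsumw : ∑ p ∈ P, ((Ω p).card : ℝ) = ∑ p ∈ P, w p :=
    Finset.sum_congr rfl fun p hp => by rw [hw]; dsimp only; rw [if_pos hp]
  rw [hsumg, hsumw]
  -- pointwise inequality, summed
  have h1 : (((Finset.Ioc 0 X).filter (fun l => ∀ p ∈ P, l % p ∉ Ω p)).card : ℝ) ≤
      ∑ k ∈ Finset.range (r + 1), (-1) ^ k * ∑ D ∈ P.powersetCard k,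
        (((Finset.Ioc 0 X).filter (fun l => ∀ p ∈ D, l % p ∈ Ω p)).card : ℝ) := by
    have e1 : (((Finset.Ioc 0 X).filter (fun l => ∀ p ∈ P, l % p ∉ Ω p)).card : ℝ) =
        ∑ l ∈ Finset.Ioc 0 X, (if P.filter (fun p => l % p ∈ Ω p) = ∅ then (1 : ℝ) else 0) := by
      rw [← Finset.sum_filter, Finset.sum_const, nsmul_eq_mul, mul_one]
      congr 2
      ext l
      simp only [Finset.mem_filter, Finset.filter_eq_empty_iff]
    have e2 : ∀ k, ∑ D ∈ P.powersetCard k,
        (((Finset.Ioc 0 X).filter (fun l => ∀ p ∈ D, l % p ∈ Ω p)).card : ℝ) =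
        ∑ l ∈ Finset.Ioc 0 X, ∑ D ∈ P.powersetCard k,
          (if D ⊆ P.filter (fun p => l % p ∈ Ω p) then (1 : ℝ) else 0) := by
      intro k
      rw [Finset.sum_comm]
      refine Finset.sum_congr rfl fun D hD => ?_
      rw [← Finset.sum_filter, Finset.sum_const, nsmul_eq_mul, mul_one]
      congr 2
      ext l
      simp only [Finset.mem_filter, Finset.subset_iff]
      have hDP := (Finset.mem_powersetCard.mp hD).1
      constructor
      · rintro ⟨h1, h2⟩
        exact ⟨h1, fun p hp => ⟨hDP hp, h2 p hp⟩⟩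
      · rintro ⟨h1, h2⟩
        exact ⟨h1, fun p hp => (h2 hp).2⟩
    have e3 : ∑ k ∈ Finset.range (r + 1), (-1 : ℝ) ^ k * ∑ D ∈ P.powersetCard k,
        (((Finset.Ioc 0 X).filter (fun l => ∀ p ∈ D, l % p ∈ Ω p)).card : ℝ) =
        ∑ l ∈ Finset.Ioc 0 X, ∑ k ∈ Finset.range (r + 1), (-1 : ℝ) ^ k *
          ∑ D ∈ P.powersetCard k,
          (if D ⊆ P.filter (fun p => l % p ∈ Ω p) then (1 : ℝ) else 0) := by
      rw [Finset.sum_comm]
      refine Finset.sum_congr rfl fun k _ => ?_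
      rw [e2 k, Finset.mul_sum]
    rw [e1, e3]
    exact Finset.sum_le_sum fun l _ => pointwise P _ (Finset.filter_subset _ _) r hr
  -- replace counts by main terms
  have h2 : ∑ k ∈ Finset.range (r + 1), (-1) ^ k * ∑ D ∈ P.powersetCard k,
        (((Finset.Ioc 0 X).filter (fun l => ∀ p ∈ D, l % p ∈ Ω p)).card : ℝ) ≤
      X * trunc g P (r + 1) + ∑ k ∈ Finset.range (r + 1), esym w P k := by
    unfold trunc
    rw [Finset.mul_sum, ← Finset.sum_add_distrib]
    refine Finset.sum_le_sum fun k _ => ?_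
    have h3 : |∑ D ∈ P.powersetCard k,
        (((Finset.Ioc 0 X).filter (fun l => ∀ p ∈ D, l % p ∈ Ω p)).card : ℝ) - X * esym g P k| ≤
        esym w P k := by
      unfold esym
      rw [Finset.mul_sum, ← Finset.sum_sub_distrib]
      refine (Finset.abs_sum_le_sum_abs _ _).trans (Finset.sum_le_sum fun D hD => ?_)
      have hDP := (Finset.mem_powersetCard.mp hD).1
      have h4 := count_D X Ω D (fun p hp => hP p (hDP hp)) (fun p hp => hΩ p (hDP hp))
      have e5 : ∏ p ∈ D, g p = ∏ p ∈ D, ((Ω p).card / p : ℝ) :=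
        Finset.prod_congr rfl fun p hp => by rw [hg]; dsimp only; rw [if_pos (hDP hp)]
      have e6 : ∏ p ∈ D, w p = ∏ p ∈ D, ((Ω p).card : ℝ) :=
        Finset.prod_congr rfl fun p hp => by rw [hw]; dsimp only; rw [if_pos (hDP hp)]
      rw [e5, e6]
      exact h4
    have h5 := abs_le.mp h3
    rcases neg_one_pow_eq_or ℝ k with hk | hk
    · rw [hk]; linarith
    · rw [hk]; linarith
  -- the error terms
  have h3 : ∑ k ∈ Finset.range (r + 1), esym w P k ≤ (1 + ∑ p ∈ P, w p) ^ r := by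
    have hW : 0 ≤ ∑ p ∈ P, w p := Finset.sum_nonneg fun p _ => hw0 p
    rw [add_comm (1 : ℝ), add_pow]
    refine Finset.sum_le_sum fun k hk => ?_
    rw [one_pow, mul_one]
    have h4 := esym_le hw0 P k
    have hk' : k ≤ r := by
      have := Finset.mem_range.mp hk; omega
    have h5 : (1 : ℝ) ≤ (r.choose k : ℝ) := by
      exact_mod_cast Nat.choose_pos hk'
    have h6 : (1 : ℝ) ≤ (k.factorial : ℝ) := by exact_mod_cast Nat.factorial_pos k
    have h7 := esym_nonneg hw0 P k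
    calc esym w P k ≤ (k.factorial : ℝ) * esym w P k := le_mul_of_one_le_left h7 h6
      _ ≤ (∑ p ∈ P, w p) ^ k := h4
      _ ≤ (∑ p ∈ P, w p) ^ k * (r.choose k : ℝ) :=
        le_mul_of_one_le_right (pow_nonneg hW k) h5
  have h4 : trunc g P (r + 1) ≤ Real.exp (-∑ p ∈ P, g p) +
      (∑ p ∈ P, g p) ^ (r + 1) / ((r + 1).factorial : ℝ) := by
    have h5 := (abs_le.mp (trunc_error hg0 hg1 P (r + 1))).2
    have h6 := prod_le_exp hg1 P
    have h7 := esym_le hg0 P (r + 1)
    have h8 : (0 : ℝ) < ((r + 1).factorial : ℝ) := Nat.cast_pos.mpr (Nat.factorial_pos (r + 1))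
    have h9 : esym g P (r + 1) ≤ (∑ p ∈ P, g p) ^ (r + 1) / ((r + 1).factorial : ℝ) := by
      rw [le_div_iff₀ h8]; linarith
    linarith
  have hX : (0 : ℝ) ≤ X := by positivity
  calc _ ≤ _ := h1
    _ ≤ _ := h2
    _ ≤ X * (Real.exp (-∑ p ∈ P, g p) +
      (∑ p ∈ P, g p) ^ (r + 1) / ((r + 1).factorial : ℝ)) + (1 + ∑ p ∈ P, w p) ^ r :=
      add_le_add (mul_le_mul_of_nonneg_left h4 hX) h3

end Pool.Agent.Lib.MP_9aa437_nt
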