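import Pool.Agent.Lib.MP_9aa437_nt.Brun

set_option autoImplicit false

namespace Pool.Agent.Lib.MP_9aa437_nt

open Finset

lemma pointwise_odd (P : Finset ℕ) (B : Finset ℕ) (hB : B ⊆ P) (r : ℕ) (hr : Odd r) :
    ∑ k ∈ Finset.range (r + 1), (-1) ^ k * ∑ D ∈ P.powersetCard k,
      (if D ⊆ B then (1 : ℝ) else 0) ≤ (if B = ∅ then (1 : ℝ) else 0) := by
  have h1 : ∀ k, ∑ D ∈ P.powersetCard k, (if D ⊆ B then (1 : ℝ) else 0) = (B.card.choose k : ℝ) := by
    intro k
    rw [← Finset.sum_filter, Finset.sum_const, nsmul_eq_mul, mul_one]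
    congr 1
    rw [← Finset.card_powersetCard]
    congr 1
    ext D
    simp only [Finset.mem_filter, Finset.mem_powersetCard]
    constructor
    · rintro ⟨⟨_, h2⟩, h3⟩
      exact ⟨h3, h2⟩
    · rintro ⟨h2, h3⟩
      exact ⟨⟨h2.trans hB, h3⟩, h2⟩
  simp_rw [h1]
  by_cases hBe : B = ∅
  · subst hBe
    rw [if_pos rfl, Finset.card_empty, Finset.sum_range_succ']
    simp
  · rw [if_neg hBe]
    have hc : 0 < B.card := Finset.card_pos.mpr (Finset.nonempty_iff_ne_empty.mpr hBe)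
    obtain ⟨n, hn⟩ : ∃ n, B.card = n + 1 := ⟨B.card - 1, by omega⟩
    rw [hn]
    have h2 := @Int.alternating_sum_range_choose_eq_choose n r
    have h3 : ((∑ i ∈ Finset.range (r + 1), (-1 : ℤ) ^ i * ((n + 1).choose i : ℤ) : ℤ) : ℝ) =
        ((-1 : ℤ) ^ r * (n.choose r : ℤ) : ℤ) := by rw [h2]
    push_cast at h3
    rw [h3, hr.neg_one_pow]
    have : (0 : ℝ) ≤ (n.choose r : ℝ) := Nat.cast_nonneg _
    linarith

/-- **Brun's pure sieve** (lower bound). -/
theorem brun_lower (X : ℕ) (Ω : ℕ → Finset ℕ) (P : Finset ℕ) (hP : ∀ p ∈ P, p.Prime)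
    (hΩ : ∀ p ∈ P, ∀ u ∈ Ω p, u < p) (r : ℕ) (hr : Odd r) :
    X * ((∏ p ∈ P, (1 - ((Ω p).card / p : ℝ))) -
        (∑ p ∈ P, ((Ω p).card / p : ℝ)) ^ (r + 1) / ((r + 1).factorial : ℝ)) -
      (1 + ∑ p ∈ P, ((Ω p).card : ℝ)) ^ r ≤
    (((Finset.Ioc 0 X).filter (fun l => ∀ p ∈ P, l % p ∉ Ω p)).card : ℝ) := by
  classical
  -- replace `Ω` by a function with junk-free values
  set g : ℕ → ℝ := fun p => if p ∈ P then ((Ω p).card / p : ℝ) else 0 with hg
  set w : ℕ → ℝ := fun p => if p ∈ P then ((Ω p).card : ℝ) else 0 with hw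
  have hg0 : ∀ p, 0 ≤ g p := fun p => by rw [hg]; dsimp only; split_ifs <;> positivity
  have hw0 : ∀ p, 0 ≤ w p := fun p => by rw [hw]; dsimp only; split_ifs <;> positivity
  have hcard : ∀ p ∈ P, (Ω p).card ≤ p := by
    intro p hp
    calc (Ω p).card ≤ (Finset.range p).card :=
          Finset.card_le_card fun u hu => Finset.mem_range.mpr (hΩ p hp u hu)
      _ = p := Finset.card_range p
  have hg1 : ∀ p, g p ≤ 1 := fun p => by
    rw [hg]; dsimp only
    split_ifs with h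
    · have hp : (0 : ℝ) < p := by exact_mod_cast (hP p h).pos
      rw [div_le_one hp]
      exact_mod_cast hcard p h
    · norm_num
  have hsumg : ∑ p ∈ P, ((Ω p).card / p : ℝ) = ∑ p ∈ P, g p :=
    Finset.sum_congr rfl fun p hp => by rw [hg]; dsimp only; rw [if_pos hp]
  have hsumw : ∑ p ∈ P, ((Ω p).card : ℝ) = ∑ p ∈ P, w p :=
    Finset.sum_congr rfl fun p hp => by rw [hw]; dsimp only; rw [if_pos hp]
  have hprodg : ∏ p ∈ P, (1 - ((Ω p).card / p : ℝ)) = ∏ p ∈ P, (1 - g p) :=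
    Finset.prod_congr rfl fun p hp => by rw [hg]; dsimp only; rw [if_pos hp]
  rw [hsumg, hsumw, hprodg]
  -- pointwise inequality, summed
  have h1 : ∑ k ∈ Finset.range (r + 1), (-1) ^ k * ∑ D ∈ P.powersetCard k,
        (((Finset.Ioc 0 X).filter (fun l => ∀ p ∈ D, l % p ∈ Ω p)).card : ℝ) ≤
      (((Finset.Ioc 0 X).filter (fun l => ∀ p ∈ P, l % p ∉ Ω p)).card : ℝ) := by
    have e1 : (((Finset.Ioc 0 X).filter (fun l => ∀ p ∈ P, l % p ∉ Ω p)).card : ℝ) =
        ∑ l ∈ Finset.Ioc 0 X, (if P.filter (fun p => l % p ∈ Ω p) = ∅ then (1 : ℝ) else 0) := by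
      rw [← Finset.sum_filter, Finset.sum_const, nsmul_eq_mul, mul_one]
      congr 2
      ext l
      simp only [Finset.mem_filter, Finset.filter_eq_empty_iff]
    have e2 : ∀ k, ∑ D ∈ P.powersetCard k,
        (((Finset.Ioc 0 X).filter (fun l => ∀ p ∈ D, l % p ∈ Ω p)).card : ℝ) =
        ∑ l ∈ Finset.Ioc 0 X, ∑ D ∈ P.powersetCard k,
          (if D ⊆ P.filter (fun p => l % p ∈ Ω p) then (1 : ℝ) else 0) := by
      intro k
      rw [Finset.sum_comm]
      refine Finset.sum_congr rfl fun D hD => ?_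
      rw [← Finset.sum_filter, Finset.sum_const, nsmul_eq_mul, mul_one]
      congr 2
      ext l
      simp only [Finset.mem_filter, Finset.subset_iff]
      have hDP := (Finset.mem_powersetCard.mp hD).1
      constructor
      · rintro ⟨h1, h2⟩
        exact ⟨h1, fun p hp => ⟨hDP hp, h2 p hp⟩⟩
      · rintro ⟨h1, h2⟩
        exact ⟨h1, fun p hp => (h2 hp).2⟩
    have e3 : ∑ k ∈ Finset.range (r + 1), (-1 : ℝ) ^ k * ∑ D ∈ P.powersetCard k,
        (((Finset.Ioc 0 X).filter (fun l => ∀ p ∈ D, l % p ∈ Ω p)).card : ℝ) =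
        ∑ l ∈ Finset.Ioc 0 X, ∑ k ∈ Finset.range (r + 1), (-1 : ℝ) ^ k *
          ∑ D ∈ P.powersetCard k,
          (if D ⊆ P.filter (fun p => l % p ∈ Ω p) then (1 : ℝ) else 0) := by
      rw [Finset.sum_comm]
      refine Finset.sum_congr rfl fun k _ => ?_
      rw [e2 k, Finset.mul_sum]
    rw [e1, e3]
    exact Finset.sum_le_sum fun l _ => pointwise_odd P _ (Finset.filter_subset _ _) r hr
  -- replace counts by main terms
  have h2 : X * trunc g P (r + 1) - ∑ k ∈ Finset.range (r + 1), esym w P k ≤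
      ∑ k ∈ Finset.range (r + 1), (-1) ^ k * ∑ D ∈ P.powersetCard k,
        (((Finset.Ioc 0 X).filter (fun l => ∀ p ∈ D, l % p ∈ Ω p)).card : ℝ) := by
    unfold trunc
    rw [Finset.mul_sum, ← Finset.sum_sub_distrib]
    refine Finset.sum_le_sum fun k _ => ?_
    have h3 : |∑ D ∈ P.powersetCard k,
        (((Finset.Ioc 0 X).filter (fun l => ∀ p ∈ D, l % p ∈ Ω p)).card : ℝ) - X * esym g P k| ≤
        esym w P k := by
      unfold esym
      rw [Finset.mul_sum, ← Finset.sum_sub_distrib]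
      refine (Finset.abs_sum_le_sum_abs _ _).trans (Finset.sum_le_sum fun D hD => ?_)
      have hDP := (Finset.mem_powersetCard.mp hD).1
      have h4 := count_D X Ω D (fun p hp => hP p (hDP hp)) (fun p hp => hΩ p (hDP hp))
      have e5 : ∏ p ∈ D, g p = ∏ p ∈ D, ((Ω p).card / p : ℝ) :=
        Finset.prod_congr rfl fun p hp => by rw [hg]; dsimp only; rw [if_pos (hDP hp)]
      have e6 : ∏ p ∈ D, w p = ∏ p ∈ D, ((Ω p).card : ℝ) :=
        Finset.prod_congr rfl fun p hp => by rw [hw]; dsimp only; rw [if_pos (hDP hp)]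
      rw [e5, e6]
      exact h4
    have h5 := abs_le.mp h3
    rcases neg_one_pow_eq_or ℝ k with hk | hk
    · rw [hk]; linarith
    · rw [hk]; linarith
  -- the error terms
  have h3 : ∑ k ∈ Finset.range (r + 1), esym w P k ≤ (1 + ∑ p ∈ P, w p) ^ r := by
    have hW : 0 ≤ ∑ p ∈ P, w p := Finset.sum_nonneg fun p _ => hw0 p
    rw [add_comm (1 : ℝ), add_pow]
    refine Finset.sum_le_sum fun k hk => ?_
    rw [one_pow, mul_one]
    have h4 := esym_le hw0 P k
    have hk' : k ≤ r := by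
      have := Finset.mem_range.mp hk; omega
    have h5 : (1 : ℝ) ≤ (r.choose k : ℝ) := by
      exact_mod_cast Nat.choose_pos hk'
    have h6 : (1 : ℝ) ≤ (k.factorial : ℝ) := by exact_mod_cast Nat.factorial_pos k
    have h7 := esym_nonneg hw0 P k
    calc esym w P k ≤ (k.factorial : ℝ) * esym w P k := le_mul_of_one_le_left h7 h6
      _ ≤ (∑ p ∈ P, w p) ^ k := h4
      _ ≤ (∑ p ∈ P, w p) ^ k * (r.choose k : ℝ) :=
        le_mul_of_one_le_right (pow_nonneg hW k) h5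
  have h4 : (∏ p ∈ P, (1 - g p)) -
      (∑ p ∈ P, g p) ^ (r + 1) / ((r + 1).factorial : ℝ) ≤ trunc g P (r + 1) := by
    have h5 := (abs_le.mp (trunc_error hg0 hg1 P (r + 1))).1
    have h7 := esym_le hg0 P (r + 1)
    have h8 : (0 : ℝ) < ((r + 1).factorial : ℝ) := Nat.cast_pos.mpr (Nat.factorial_pos (r + 1))
    have h9 : esym g P (r + 1) ≤ (∑ p ∈ P, g p) ^ (r + 1) / ((r + 1).factorial : ℝ) := by
      rw [le_div_iff₀ h8]; linarith
    linarith
  have hX : (0 : ℝ) ≤ X := by positivity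
  have h10 := mul_le_mul_of_nonneg_left h4 hX
  linarith

end Pool.Agent.Lib.MP_9aa437_nt
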