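import Pool.Agent.Lib.MP_9aa437_nt.Brun

set_option autoImplicit false

namespace Pool.Agent.Lib.MP_9aa437_nt.Moments

open Finset Pool.Agent.Lib.MP_9aa437_nt

/-- the indicator of the classes `Ω p` -/
noncomputable def ind (Ω : ℕ → Finset ℕ) (p l : ℕ) : ℝ := if l % p ∈ Ω p then 1 else 0

/-- the number of `p ∈ Q` with `l` in a class of `Ω p` -/
noncomputable def hs (Ω : ℕ → Finset ℕ) (Q : Finset ℕ) (l : ℕ) : ℝ := ∑ p ∈ Q, ind Ω p l

/-- the densities -/
noncomputable def dn (Ω : ℕ → Finset ℕ) (p : ℕ) : ℝ := ((Ω p).card : ℝ) / p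

/-- the mean of a group -/
noncomputable def mn (Ω : ℕ → Finset ℕ) (Q : Finset ℕ) : ℝ := ∑ p ∈ Q, dn Ω p

/-- the variance of a group -/
noncomputable def vr (Ω : ℕ → Finset ℕ) (Q : Finset ℕ) : ℝ := ∑ p ∈ Q, (dn Ω p - dn Ω p ^ 2)

/-- the number of classes of a group -/
noncomputable def wt (Ω : ℕ → Finset ℕ) (Q : Finset ℕ) : ℝ := ∑ p ∈ Q, ((Ω p).card : ℝ)

/-- the integers in the classes of `Ω p` for all `p ∈ D` -/
def cls (X : ℕ) (Ω : ℕ → Finset ℕ) (D : Finset ℕ) : Finset ℕ :=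
  (Ioc 0 X).filter (fun l => ∀ p ∈ D, l % p ∈ Ω p)

/-- the product of squares of deviations over the first `j` groups -/
noncomputable def Fp (Ω : ℕ → Finset ℕ) (P : ℕ → Finset ℕ) (j l : ℕ) : ℝ :=
  ∏ i ∈ range j, (hs Ω (P i) l - mn Ω (P i)) ^ 2

/-- the sum of the products over a class -/
noncomputable def S (X : ℕ) (Ω : ℕ → Finset ℕ) (P : ℕ → Finset ℕ) (j : ℕ) (D : Finset ℕ) : ℝ :=
  ∑ l ∈ cls X Ω D, Fp Ω P j l

lemma sum_ind (X : ℕ) (Ω : ℕ → Finset ℕ) (D : Finset ℕ) (p : ℕ) (F : ℕ → ℝ) :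
    ∑ l ∈ cls X Ω D, F l * ind Ω p l = ∑ l ∈ cls X Ω (insert p D), F l := by
  have e : cls X Ω (insert p D) = (cls X Ω D).filter (fun l => l % p ∈ Ω p) := by
    ext l
    simp only [cls, Finset.mem_filter, Finset.mem_insert, forall_eq_or_imp]
    tauto
  rw [e, Finset.sum_filter]
  refine Finset.sum_congr rfl fun l _ => ?_
  unfold ind
  split_ifs <;> simp

lemma ind_sq (Ω : ℕ → Finset ℕ) (p l : ℕ) : ind Ω p l * ind Ω p l = ind Ω p l := by
  unfold ind
  split_ifs <;> simp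

/-- expansion of the square of a deviation -/
lemma dev_sq (Ω : ℕ → Finset ℕ) (Q : Finset ℕ) (l : ℕ) (m : ℝ) :
    (hs Ω Q l - m) ^ 2 = (∑ p ∈ Q, ∑ q ∈ Q.erase p, ind Ω p l * ind Ω q l) +
      (1 - 2 * m) * ∑ p ∈ Q, ind Ω p l + m ^ 2 := by
  have h1 : hs Ω Q l ^ 2 = (∑ p ∈ Q, ∑ q ∈ Q.erase p, ind Ω p l * ind Ω q l) +
      ∑ p ∈ Q, ind Ω p l := by
    rw [hs, sq, Finset.sum_mul_sum, ← Finset.sum_add_distrib]
    refine Finset.sum_congr rfl fun p hp => ?_
    rw [← Finset.add_sum_erase Q _ hp, ind_sq, add_comm]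
  have h2 : hs Ω Q l = ∑ p ∈ Q, ind Ω p l := rfl
  have h3 : (hs Ω Q l - m) ^ 2 = hs Ω Q l ^ 2 - 2 * m * hs Ω Q l + m ^ 2 := by ring
  rw [h3, h1, h2]
  ring

lemma S_succ (X : ℕ) (Ω : ℕ → Finset ℕ) (P : ℕ → Finset ℕ) (j : ℕ) (D : Finset ℕ) :
    S X Ω P (j + 1) D =
      (∑ p ∈ P j, ∑ q ∈ (P j).erase p, S X Ω P j (insert q (insert p D))) +
      (1 - 2 * mn Ω (P j)) * ∑ p ∈ P j, S X Ω P j (insert p D) +
      mn Ω (P j) ^ 2 * S X Ω P j D := by
  set m := mn Ω (P j) with hm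
  have h1 : S X Ω P (j + 1) D = ∑ l ∈ cls X Ω D, Fp Ω P j l *
      ((∑ p ∈ P j, ∑ q ∈ (P j).erase p, ind Ω p l * ind Ω q l) +
      (1 - 2 * m) * ∑ p ∈ P j, ind Ω p l + m ^ 2) := by
    refine Finset.sum_congr rfl fun l _ => ?_
    rw [← dev_sq, Fp, Finset.prod_range_succ]
    rfl
  have h2 : ∑ p ∈ P j, ∑ q ∈ (P j).erase p, S X Ω P j (insert q (insert p D)) =
      ∑ l ∈ cls X Ω D, Fp Ω P j l * ∑ p ∈ P j, ∑ q ∈ (P j).erase p, ind Ω p l * ind Ω q l := by
    simp_rw [Finset.mul_sum]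
    rw [Finset.sum_comm]
    refine Finset.sum_congr rfl fun p _ => ?_
    rw [Finset.sum_comm]
    refine Finset.sum_congr rfl fun q _ => ?_
    unfold S
    rw [← sum_ind, ← sum_ind]
    refine Finset.sum_congr rfl fun l _ => ?_
    ring
  have h3 : ∑ p ∈ P j, S X Ω P j (insert p D) =
      ∑ l ∈ cls X Ω D, Fp Ω P j l * ∑ p ∈ P j, ind Ω p l := by
    simp_rw [Finset.mul_sum]
    rw [Finset.sum_comm]
    refine Finset.sum_congr rfl fun p _ => ?_
    unfold S
    rw [← sum_ind]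
  rw [h1, h2, h3]
  unfold S
  rw [Finset.mul_sum, Finset.mul_sum, ← Finset.sum_add_distrib, ← Finset.sum_add_distrib]
  refine Finset.sum_congr rfl fun l _ => ?_
  ring

/-- the main term -/
noncomputable def main (X : ℕ) (Ω : ℕ → Finset ℕ) (P : ℕ → Finset ℕ) (j : ℕ) (D : Finset ℕ) : ℝ :=
  X * (∏ p ∈ D, dn Ω p) * ∏ i ∈ range j, vr Ω (P i)

lemma main_succ (X : ℕ) (Ω : ℕ → Finset ℕ) (P : ℕ → Finset ℕ) (j : ℕ) (D : Finset ℕ)
    (hd : Disjoint D (P j)) :
    main X Ω P (j + 1) D =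
      (∑ p ∈ P j, ∑ q ∈ (P j).erase p, main X Ω P j (insert q (insert p D))) +
      (1 - 2 * mn Ω (P j)) * ∑ p ∈ P j, main X Ω P j (insert p D) +
      mn Ω (P j) ^ 2 * main X Ω P j D := by
  set m := mn Ω (P j) with hm
  have hp : ∀ p ∈ P j, main X Ω P j (insert p D) = main X Ω P j D * dn Ω p := by
    intro p hp
    unfold main
    rw [Finset.prod_insert (fun h => Finset.disjoint_left.mp hd h hp)]
    ring
  have hpq : ∀ p ∈ P j, ∀ q ∈ (P j).erase p, main X Ω P j (insert q (insert p D)) =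
      main X Ω P j D * (dn Ω p * dn Ω q) := by
    intro p hp q hq
    obtain ⟨hne, hq'⟩ := Finset.mem_erase.mp hq
    unfold main
    rw [Finset.prod_insert, Finset.prod_insert (fun h => Finset.disjoint_left.mp hd h hp)]
    · ring
    · rw [Finset.mem_insert]
      rintro (h | h)
      · exact hne h
      · exact Finset.disjoint_left.mp hd h hq'
  have h1 : ∑ p ∈ P j, ∑ q ∈ (P j).erase p, main X Ω P j (insert q (insert p D)) =
      main X Ω P j D * (m ^ 2 - ∑ p ∈ P j, dn Ω p ^ 2) := by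
    have e : m ^ 2 - ∑ p ∈ P j, dn Ω p ^ 2 =
        ∑ p ∈ P j, ∑ q ∈ (P j).erase p, dn Ω p * dn Ω q := by
      rw [hm, mn, sq, Finset.sum_mul_sum, ← Finset.sum_sub_distrib]
      refine Finset.sum_congr rfl fun p hp => ?_
      rw [← Finset.add_sum_erase (P j) _ hp]
      ring
    rw [e, Finset.mul_sum]
    refine Finset.sum_congr rfl fun p hp => ?_
    rw [Finset.mul_sum]
    exact Finset.sum_congr rfl fun q hq => hpq p hp q hq
  have h2 : ∑ p ∈ P j, main X Ω P j (insert p D) = main X Ω P j D * m := by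
    rw [hm, mn, Finset.mul_sum]
    exact Finset.sum_congr rfl hp
  have h3 : main X Ω P (j + 1) D = main X Ω P j D * vr Ω (P j) := by
    unfold main
    rw [Finset.prod_range_succ]
    ring
  have h4 : vr Ω (P j) = m - ∑ p ∈ P j, dn Ω p ^ 2 := by
    rw [vr, Finset.sum_sub_distrib, hm, mn]
  rw [h1, h2, h3, h4]
  ring

/-- the error term -/
noncomputable def er (Ω : ℕ → Finset ℕ) (K : ℝ) (j : ℕ) (D : Finset ℕ) : ℝ :=
  (∏ p ∈ D, ((Ω p).card : ℝ)) * K ^ j

/-- **Product of variances.** -/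
theorem moments (X : ℕ) (Ω : ℕ → Finset ℕ) (P : ℕ → Finset ℕ) (W : ℝ) (hW1 : 1 ≤ W)
    (hP : ∀ i, ∀ p ∈ P i, p.Prime) (hΩ : ∀ i, ∀ p ∈ P i, ∀ u ∈ Ω p, u < p)
    (hdis : ∀ i i', i ≠ i' → Disjoint (P i) (P i'))
    (hWt : ∀ i, wt Ω (P i) ≤ W) (hmn : ∀ i, mn Ω (P i) ≤ W) :
    ∀ j : ℕ, ∀ D : Finset ℕ, (∀ p ∈ D, p.Prime) → (∀ p ∈ D, ∀ u ∈ Ω p, u < p) →
      (∀ i < j, Disjoint D (P i)) →
      |S X Ω P j D - main X Ω P j D| ≤ er Ω (5 * W ^ 2) j D := by
  intro j
  induction j with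
  | zero =>
    intro D hD hD2 _
    have h := count_D X Ω D hD hD2
    have e1 : S X Ω P 0 D = ((cls X Ω D).card : ℝ) := by
      unfold S Fp
      simp
    have e2 : main X Ω P 0 D = X * ∏ p ∈ D, ((Ω p).card / p : ℝ) := by
      unfold main dn
      simp
    have e3 : er Ω (5 * W ^ 2) 0 D = ∏ p ∈ D, ((Ω p).card : ℝ) := by
      unfold er
      simp
    rw [e1, e2, e3]
    exact h
  | succ j ih =>
    intro D hD hD2 hDd
    have hdj : Disjoint D (P j) := hDd j (Nat.lt_succ_self j)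
    rw [S_succ, main_succ X Ω P j D hdj]
    set m := mn Ω (P j) with hm
    set w := wt Ω (P j) with hw
    have hm0 : 0 ≤ m := Finset.sum_nonneg fun p _ => by unfold dn; positivity
    have hw0 : 0 ≤ w := Finset.sum_nonneg fun p _ => by positivity
    have hmW : m ≤ W := hmn j
    have hwW : w ≤ W := hWt j
    have hE0 : 0 ≤ er Ω (5 * W ^ 2) j D := by
      unfold er
      exact mul_nonneg (Finset.prod_nonneg fun _ _ => Nat.cast_nonneg _) (by positivity)
    set e0 := er Ω (5 * W ^ 2) j D with he0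
    -- the errors of the three kinds of terms
    have b0 : |S X Ω P j D - main X Ω P j D| ≤ e0 :=
      ih D hD hD2 fun i hi => hDd i (by omega)
    have b1 : ∀ p ∈ P j, |S X Ω P j (insert p D) - main X Ω P j (insert p D)| ≤
        ((Ω p).card : ℝ) * e0 := by
      intro p hp
      have hpD : p ∉ D := fun h => Finset.disjoint_left.mp hdj h hp
      refine (ih (insert p D) ?_ ?_ ?_).trans (le_of_eq ?_)
      · intro q hq
        rcases Finset.mem_insert.mp hq with rfl | hq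
        · exact hP j _ hp
        · exact hD q hq
      · intro q hq
        rcases Finset.mem_insert.mp hq with rfl | hq
        · exact hΩ j _ hp
        · exact hD2 q hq
      · intro i hi
        rw [Finset.disjoint_insert_left]
        refine ⟨fun h => Finset.disjoint_left.mp (hdis i j (by omega)) h hp, hDd i (by omega)⟩
      · rw [he0]
        unfold er
        rw [Finset.prod_insert hpD]
        ring
    have b2 : ∀ p ∈ P j, ∀ q ∈ (P j).erase p,
        |S X Ω P j (insert q (insert p D)) - main X Ω P j (insert q (insert p D))| ≤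
        ((Ω p).card : ℝ) * ((Ω q).card : ℝ) * e0 := by
      intro p hp q hq
      obtain ⟨hne, hqP⟩ := Finset.mem_erase.mp hq
      have hpD : p ∉ D := fun h => Finset.disjoint_left.mp hdj h hp
      have hqD : q ∉ insert p D := by
        rw [Finset.mem_insert]
        rintro (h | h)
        · exact hne h
        · exact Finset.disjoint_left.mp hdj h hqP
      refine (ih (insert q (insert p D)) ?_ ?_ ?_).trans (le_of_eq ?_)
      · intro s hs
        rcases Finset.mem_insert.mp hs with rfl | hs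
        · exact hP j _ hqP
        · rcases Finset.mem_insert.mp hs with rfl | hs
          · exact hP j _ hp
          · exact hD s hs
      · intro s hs
        rcases Finset.mem_insert.mp hs with rfl | hs
        · exact hΩ j _ hqP
        · rcases Finset.mem_insert.mp hs with rfl | hs
          · exact hΩ j _ hp
          · exact hD2 s hs
      · intro i hi
        rw [Finset.disjoint_insert_left, Finset.disjoint_insert_left]
        exact ⟨fun h => Finset.disjoint_left.mp (hdis i j (by omega)) h hqP,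
          fun h => Finset.disjoint_left.mp (hdis i j (by omega)) h hp, hDd i (by omega)⟩
      · rw [he0]
        unfold er
        rw [Finset.prod_insert hqD, Finset.prod_insert hpD]
        ring
    have c1 : |(∑ p ∈ P j, S X Ω P j (insert p D)) - ∑ p ∈ P j, main X Ω P j (insert p D)| ≤
        w * e0 := by
      rw [← Finset.sum_sub_distrib, hw, wt, Finset.sum_mul]
      exact (Finset.abs_sum_le_sum_abs _ _).trans (Finset.sum_le_sum b1)
    have c2 : |(∑ p ∈ P j, ∑ q ∈ (P j).erase p, S X Ω P j (insert q (insert p D))) -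
        ∑ p ∈ P j, ∑ q ∈ (P j).erase p, main X Ω P j (insert q (insert p D))| ≤
        w * w * e0 := by
      rw [← Finset.sum_sub_distrib]
      refine (Finset.abs_sum_le_sum_abs _ _).trans ?_
      have : ∀ p ∈ P j, |(∑ q ∈ (P j).erase p, S X Ω P j (insert q (insert p D))) -
          ∑ q ∈ (P j).erase p, main X Ω P j (insert q (insert p D))| ≤
          ((Ω p).card : ℝ) * w * e0 := by
        intro p hp
        rw [← Finset.sum_sub_distrib]
        refine (Finset.abs_sum_le_sum_abs _ _).trans ((Finset.sum_le_sum (b2 p hp)).trans ?_)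
        rw [← Finset.sum_mul, ← Finset.mul_sum]
        gcongr
        rw [hw, wt]
        exact Finset.sum_le_sum_of_subset_of_nonneg (Finset.erase_subset _ _)
          fun _ _ _ => Nat.cast_nonneg _
      refine (Finset.sum_le_sum this).trans (le_of_eq ?_)
      rw [← Finset.sum_mul, ← Finset.sum_mul]
      rfl
    have hsucc : er Ω (5 * W ^ 2) (j + 1) D = 5 * W ^ 2 * e0 := by
      rw [he0]
      unfold er
      rw [pow_succ]
      ring
    rw [hsucc]
    set s2 := ∑ p ∈ P j, ∑ q ∈ (P j).erase p, S X Ω P j (insert q (insert p D))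
    set m2 := ∑ p ∈ P j, ∑ q ∈ (P j).erase p, main X Ω P j (insert q (insert p D))
    set s1 := ∑ p ∈ P j, S X Ω P j (insert p D)
    set m1 := ∑ p ∈ P j, main X Ω P j (insert p D)
    set s0 := S X Ω P j D
    set m0 := main X Ω P j D
    have key : s2 + (1 - 2 * m) * s1 + m ^ 2 * s0 - (m2 + (1 - 2 * m) * m1 + m ^ 2 * m0) =
        (s2 - m2) + (1 - 2 * m) * (s1 - m1) + m ^ 2 * (s0 - m0) := by ring
    rw [key]
    have t1 : |(1 - 2 * m) * (s1 - m1)| ≤ (1 + 2 * m) * (w * e0) := by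
      rw [abs_mul]
      have : |1 - 2 * m| ≤ 1 + 2 * m := by
        rw [abs_le]
        constructor <;> linarith
      gcongr
    have t2 : |m ^ 2 * (s0 - m0)| ≤ m ^ 2 * e0 := by
      rw [abs_mul, abs_of_nonneg (by positivity : (0 : ℝ) ≤ m ^ 2)]
      gcongr
    have t3 := abs_add_le ((s2 - m2) + (1 - 2 * m) * (s1 - m1)) (m ^ 2 * (s0 - m0))
    have t4 := abs_add_le (s2 - m2) ((1 - 2 * m) * (s1 - m1))
    have t5 : w * w * e0 + (1 + 2 * m) * (w * e0) + m ^ 2 * e0 ≤ 5 * W ^ 2 * e0 := by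
      have u1 : w * w ≤ W ^ 2 := by nlinarith
      have u2 : w ≤ W ^ 2 := by nlinarith
      have u3 : m * w ≤ W ^ 2 := by nlinarith
      have u4 : m ^ 2 ≤ W ^ 2 := by nlinarith
      have u5 : w * w + (1 + 2 * m) * w + m ^ 2 ≤ 5 * W ^ 2 := by nlinarith
      calc w * w * e0 + (1 + 2 * m) * (w * e0) + m ^ 2 * e0 =
          (w * w + (1 + 2 * m) * w + m ^ 2) * e0 := by ring
        _ ≤ 5 * W ^ 2 * e0 := by gcongr
    linarith

end Pool.Agent.Lib.MP_9aa437_nt.Moments
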