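import Mathlib

set_option autoImplicit false

namespace Pool.Agent.Lib.MP_9aa437_nt

open ArithmeticFunction ArithmeticFunction.vonMangoldt LSeries

variable {q : ℕ} [NeZero q] {a : ZMod q}

open Classical in
/-- indicator function of the primes in the residue class `a` mod `q` -/
noncomputable def ind (a : ZMod q) (n : ℕ) : ℝ := if n.Prime ∧ (n : ZMod q) = a then 1 else 0

lemma ind_nonneg (a : ZMod q) (n : ℕ) : 0 ≤ ind a n := by
  unfold ind; split_ifs <;> norm_num

lemma ind_le_one (a : ZMod q) (n : ℕ) : ind a n ≤ 1 := by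
  unfold ind; split_ifs <;> norm_num

lemma ind_zero (a : ZMod q) : ind a 0 = 0 := by
  unfold ind; simp [Nat.not_prime_zero]

lemma residueClass_split (n : ℕ) :
    residueClass a n = ind a n * Real.log n + (if n.Prime then 0 else residueClass a n) := by
  by_cases hp : n.Prime
  · by_cases ha : (n : ZMod q) = a
    · simp [ind, hp, ha, Set.indicator, vonMangoldt_apply_prime hp]
    · simp [ind, hp, ha, Set.indicator]
  · simp [ind, hp]

lemma summable_rpow_inv {x : ℝ} (hx : 1 < x) : Summable fun n : ℕ => 1 / (n : ℝ) ^ x :=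
  Real.summable_one_div_nat_rpow.mpr hx

lemma summable_ind {x : ℝ} (hx : 1 < x) : Summable fun n : ℕ => ind a n / (n : ℝ) ^ x := by
  refine Summable.of_nonneg_of_le (fun n => ?_) (fun n => ?_) (summable_rpow_inv hx)
  · have := ind_nonneg a n; positivity
  · have := ind_le_one a n
    gcongr

lemma summable_residue {x : ℝ} (hx : 1 < x) :
    Summable fun n : ℕ => residueClass a n / (n : ℝ) ^ x :=
  summable_real_of_abscissaOfAbsConv_lt <|
    (abscissaOfAbsConv_residueClass_le_one a).trans_lt <| mod_cast hx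

lemma summable_ind_log {x : ℝ} (hx : 1 < x) :
    Summable fun n : ℕ => ind a n * Real.log n / (n : ℝ) ^ x := by
  refine Summable.of_nonneg_of_le (fun n => ?_) (fun n => ?_) (summable_residue (a := a) hx)
  · have := ind_nonneg a n
    have := Real.log_natCast_nonneg n
    positivity
  · rw [residueClass_split n]
    have h : 0 ≤ (if n.Prime then 0 else residueClass a n) := by
      split_ifs
      · exact le_rfl
      · exact residueClass_nonneg a n
    gcongr
    linarith

/-- lower bound for the logarithmic sum over primes in a residue class -/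
lemma log_lower (ha : IsUnit a) : ∃ C : ℝ, 0 ≤ C ∧ ∀ x : ℝ, 1 < x → x ≤ 2 →
    (q.totient : ℝ)⁻¹ / (x - 1) - C ≤ ∑' n : ℕ, ind a n * Real.log n / (n : ℝ) ^ x := by
  obtain ⟨C, hC⟩ := LSeries_residueClass_lower_bound ha
  set D : ℝ := ∑' n : ℕ, (if n.Prime then 0 else residueClass a n) / (n : ℝ) with hD
  refine ⟨max (C + D) 0, le_max_right _ _, fun x hx hx2 => ?_⟩
  have h1 := hC (x := x) ⟨hx, hx2⟩
  have hs2 : Summable fun n : ℕ => (if n.Prime then 0 else residueClass a n) / (n : ℝ) ^ x := by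
    refine Summable.of_nonneg_of_le (fun n => ?_) (fun n => ?_) (summable_residue (a := a) hx)
    · have : 0 ≤ (if n.Prime then 0 else residueClass a n) := by
        split_ifs
        · exact le_rfl
        · exact residueClass_nonneg a n
      positivity
    · have : (if n.Prime then 0 else residueClass a n) ≤ residueClass a n := by
        split_ifs
        · exact residueClass_nonneg a n
        · exact le_rfl
      gcongr
  have h2 : ∑' n : ℕ, residueClass a n / (n : ℝ) ^ x =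
      ∑' n : ℕ, ind a n * Real.log n / (n : ℝ) ^ x +
      ∑' n : ℕ, (if n.Prime then 0 else residueClass a n) / (n : ℝ) ^ x := by
    rw [← (summable_ind_log hx).tsum_add hs2]
    refine tsum_congr fun n => ?_
    rw [← add_div, ← residueClass_split n]
  have h3 : ∑' n : ℕ, (if n.Prime then 0 else residueClass a n) / (n : ℝ) ^ x ≤ D := by
    refine hs2.tsum_le_tsum (fun n => ?_) (summable_residueClass_non_primes_div a)
    rcases n.eq_zero_or_pos with rfl | hn
    · simp
    · have h0 : 0 ≤ (if n.Prime then 0 else residueClass a n) := by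
        split_ifs
        · exact le_rfl
        · exact residueClass_nonneg a n
      refine div_le_div_of_nonneg_left h0 (mod_cast hn) ?_
      conv_lhs => rw [← Real.rpow_one (n : ℝ)]
      exact Real.rpow_le_rpow_of_exponent_le (by exact_mod_cast hn) hx.le
  have h4 := le_max_left (C + D) 0
  linarith

/-- one step of the doubling argument -/
lemma step (ha : IsUnit a) : ∃ C : ℝ, 0 ≤ C ∧ ∀ δ : ℝ, 0 < δ → δ ≤ 1 →
    (q.totient : ℝ)⁻¹ / 2 - C * δ ≤
      ∑' n : ℕ, ind a n / (n : ℝ) ^ (1 + δ / 2) - ∑' n : ℕ, ind a n / (n : ℝ) ^ (1 + δ) := by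
  obtain ⟨C, hC0, hC⟩ := log_lower ha
  refine ⟨C, hC0, fun δ hδ hδ1 => ?_⟩
  have h1 := hC (1 + δ) (by linarith) (by linarith)
  have h2 : δ / 2 * ∑' n : ℕ, ind a n * Real.log n / (n : ℝ) ^ (1 + δ) ≤
      ∑' n : ℕ, ind a n / (n : ℝ) ^ (1 + δ / 2) - ∑' n : ℕ, ind a n / (n : ℝ) ^ (1 + δ) := by
    rw [← (summable_ind (by linarith)).tsum_sub (summable_ind (by linarith)), ← tsum_mul_left]
    refine Summable.tsum_le_tsum (fun n => ?_) ((summable_ind_log (by linarith)).mul_left _)
      ((summable_ind (by linarith)).sub (summable_ind (by linarith)))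
    rcases n.eq_zero_or_pos with rfl | hn
    · simp [ind_zero]
    · have hn' : (0 : ℝ) < n := by exact_mod_cast hn
      have e1 : (n : ℝ) ^ (1 + δ) = (n : ℝ) ^ (1 + δ / 2) * (n : ℝ) ^ (δ / 2) := by
        rw [← Real.rpow_add hn']; congr 1; ring
      have h3 : 1 + δ / 2 * Real.log n ≤ (n : ℝ) ^ (δ / 2) := by
        rw [Real.rpow_def_of_pos hn']
        have := Real.add_one_le_exp (Real.log n * (δ / 2))
        linarith
      have hpos : 0 < (n : ℝ) ^ (1 + δ) := Real.rpow_pos_of_pos hn' _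
      have hpos2 : 0 < (n : ℝ) ^ (1 + δ / 2) := Real.rpow_pos_of_pos hn' _
      have e2 : ind a n / (n : ℝ) ^ (1 + δ / 2) = ind a n * (n : ℝ) ^ (δ / 2) / (n : ℝ) ^ (1 + δ) := by
        rw [e1]
        have : (n : ℝ) ^ (δ / 2) ≠ 0 := (Real.rpow_pos_of_pos hn' _).ne'
        field_simp
      rw [e2, ← sub_div, ← mul_div_assoc]
      gcongr
      have := ind_nonneg a n
      nlinarith
  have h3 : δ / 2 * ((q.totient : ℝ)⁻¹ / (1 + δ - 1) - C) = (q.totient : ℝ)⁻¹ / 2 - C * (δ / 2) := by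
    rw [add_sub_cancel_left]
    field_simp
  have h4 : δ / 2 * ((q.totient : ℝ)⁻¹ / (1 + δ - 1) - C) ≤
      δ / 2 * ∑' n : ℕ, ind a n * Real.log n / (n : ℝ) ^ (1 + δ) := by gcongr
  have h5 : C * (δ / 2) ≤ C * δ := by nlinarith
  linarith

/-- lower bound for the sum of `p^{-1-2^{-J}}` -/
lemma series_lower (ha : IsUnit a) : ∃ C : ℝ, 0 ≤ C ∧ ∀ J : ℕ,
    (q.totient : ℝ)⁻¹ / 2 * J - C ≤ ∑' n : ℕ, ind a n / (n : ℝ) ^ (1 + (1 / 2 : ℝ) ^ J) := by
  obtain ⟨C, hC0, hC⟩ := step ha
  refine ⟨2 * C, by linarith, ?_⟩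
  have key : ∀ J : ℕ, (q.totient : ℝ)⁻¹ / 2 * J - 2 * C * (1 - (1 / 2 : ℝ) ^ J) ≤
      ∑' n : ℕ, ind a n / (n : ℝ) ^ (1 + (1 / 2 : ℝ) ^ J) := by
    intro J
    induction J with
    | zero =>
      simp only [CharP.cast_eq_zero, mul_zero, pow_zero, sub_self]
      exact tsum_nonneg fun n => by have := ind_nonneg a n; positivity
    | succ J ih =>
      have h1 := hC ((1 / 2 : ℝ) ^ J) (by positivity) (pow_le_one₀ (by norm_num) (by norm_num))
      have e : (1 / 2 : ℝ) ^ (J + 1) = (1 / 2 : ℝ) ^ J / 2 := by rw [pow_succ]; ring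
      rw [e]
      push_cast
      nlinarith
  intro J
  have h := key J
  have h2 : 2 * C * (1 - (1 / 2 : ℝ) ^ J) ≤ 2 * C := by
    have : 0 ≤ (1 / 2 : ℝ) ^ J := by positivity
    nlinarith
  linarith

/-- telescoping bound for the tail of the zeta series -/
lemma tail_term {δ : ℝ} (hδ : 0 < δ) {n : ℕ} (hn : 1 ≤ n) :
    1 / ((n + 1 : ℕ) : ℝ) ^ (1 + δ) ≤
      (1 / δ) * (1 / (n : ℝ) ^ δ - 1 / ((n + 1 : ℕ) : ℝ) ^ δ) := by
  have hn' : (0 : ℝ) < n := by exact_mod_cast hn
  have hn1 : (0 : ℝ) < ((n + 1 : ℕ) : ℝ) := by positivity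
  set m : ℝ := ((n + 1 : ℕ) : ℝ) with hm
  have hmn : m = n + 1 := by rw [hm]; push_cast; ring
  have h1 : 1 + δ / m ≤ (m / n) ^ δ := by
    have hlog : 1 / m ≤ Real.log (m / n) := by
      have := Real.one_sub_inv_le_log_of_pos (x := m / n) (by positivity)
      have e : 1 - (m / n)⁻¹ = 1 / m := by
        rw [inv_div, hmn]; field_simp; ring
      linarith
    rw [Real.rpow_def_of_pos (by positivity)]
    have h2 := Real.add_one_le_exp (Real.log (m / n) * δ)
    have h3 : δ / m ≤ Real.log (m / n) * δ := by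
      have : δ / m = 1 / m * δ := by ring
      rw [this]
      gcongr
    linarith
  rw [Real.div_rpow hn1.le hn'.le] at h1
  have hnd : 0 < (n : ℝ) ^ δ := Real.rpow_pos_of_pos hn' _
  have hmd : 0 < m ^ δ := Real.rpow_pos_of_pos hn1 _
  rw [Real.rpow_add hn1, Real.rpow_one]
  have h2 : (1 + δ / m) * (1 / m ^ δ) ≤ m ^ δ / (n : ℝ) ^ δ * (1 / m ^ δ) := by gcongr
  have e1 : m ^ δ / (n : ℝ) ^ δ * (1 / m ^ δ) = 1 / (n : ℝ) ^ δ := by field_simp
  rw [e1] at h2
  have h3 : δ / m * (1 / m ^ δ) ≤ 1 / (n : ℝ) ^ δ - 1 / m ^ δ := by linarith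
  have e2 : 1 / (m * m ^ δ) = (1 / δ) * (δ / m * (1 / m ^ δ)) := by field_simp
  rw [e2]
  gcongr

lemma tail_sum {δ : ℝ} (hδ : 0 < δ) {N : ℕ} (hN : 1 ≤ N) (k : ℕ) :
    ∑ n ∈ Finset.range k, 1 / ((N + n + 1 : ℕ) : ℝ) ^ (1 + δ) ≤
      (1 / δ) * (1 / (N : ℝ) ^ δ - 1 / ((N + k : ℕ) : ℝ) ^ δ) := by
  induction k with
  | zero => simp
  | succ k ih =>
    rw [Finset.sum_range_succ]
    have h := tail_term hδ (n := N + k) (by omega)
    have e : N + (k + 1) = N + k + 1 := by ring
    rw [e]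
    calc _ ≤ (1 / δ) * (1 / (N : ℝ) ^ δ - 1 / ((N + k : ℕ) : ℝ) ^ δ) +
          (1 / δ) * (1 / ((N + k : ℕ) : ℝ) ^ δ - 1 / ((N + k + 1 : ℕ) : ℝ) ^ δ) := add_le_add ih h
      _ = _ := by ring

/-- **Lower bound for the reciprocal sum of primes in an arithmetic progression.** -/
theorem recip_lower (ha : IsUnit a) : ∃ C : ℝ, ∀ (J N : ℕ), Real.exp (4 ^ J) ≤ N →
    (q.totient : ℝ)⁻¹ / 2 * J - C ≤ ∑ n ∈ Finset.range (N + 1), ind a n / (n : ℝ) := by
  obtain ⟨C, hC0, hC⟩ := series_lower ha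
  refine ⟨C + 1, fun J N hN => ?_⟩
  have hN0 : (0 : ℝ) < N := lt_of_lt_of_le (Real.exp_pos _) hN
  have hN1 : 1 ≤ N := by exact_mod_cast hN0
  set δ : ℝ := (1 / 2 : ℝ) ^ J with hδ
  have hδ0 : 0 < δ := by positivity
  have h1 := hC J
  rw [← hδ] at h1
  have htail : 1 / δ * (1 / (N : ℝ) ^ δ) ≤ 1 := by
    have e1 : Real.exp (2 ^ J) ≤ (N : ℝ) ^ δ := by
      calc Real.exp (2 ^ J) = Real.exp (4 ^ J) ^ δ := by
            rw [← Real.exp_mul]
            congr 1
            rw [hδ, ← mul_pow]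
            norm_num
        _ ≤ (N : ℝ) ^ δ := Real.rpow_le_rpow (Real.exp_pos _).le hN hδ0.le
    have e2 : (2 : ℝ) ^ J ≤ Real.exp (2 ^ J) := by
      have := Real.add_one_le_exp ((2 : ℝ) ^ J)
      linarith
    have e3 : 1 / δ = 2 ^ J := by
      rw [hδ, one_div, ← inv_pow]; norm_num
    rw [e3]
    have : 0 < (N : ℝ) ^ δ := Real.rpow_pos_of_pos hN0 _
    rw [mul_one_div, div_le_one this]
    linarith
  have h2 : ∑' n : ℕ, ind a n / (n : ℝ) ^ (1 + δ) ≤
      ∑ n ∈ Finset.range (N + 1), ind a n / (n : ℝ) + 1 := by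
    refine Real.tsum_le_of_sum_range_le (fun n => ?_) (fun k => ?_)
    · have := ind_nonneg a n; positivity
    · have hmono : ∑ n ∈ Finset.range k, ind a n / (n : ℝ) ^ (1 + δ) ≤
          ∑ n ∈ Finset.range (N + 1 + k), ind a n / (n : ℝ) ^ (1 + δ) := by
        refine Finset.sum_le_sum_of_subset_of_nonneg ?_ (fun n _ _ => ?_)
        · intro n hn
          simp only [Finset.mem_range] at hn ⊢
          omega
        · have := ind_nonneg a n; positivity
      refine hmono.trans ?_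
      rw [Finset.sum_range_add]
      refine add_le_add ?_ ?_
      · refine Finset.sum_le_sum fun n _ => ?_
        rcases n.eq_zero_or_pos with rfl | hn
        · simp [ind_zero]
        · refine div_le_div_of_nonneg_left (ind_nonneg a n) (mod_cast hn) ?_
          conv_lhs => rw [← Real.rpow_one (n : ℝ)]
          exact Real.rpow_le_rpow_of_exponent_le (by exact_mod_cast hn) (by linarith)
      · calc ∑ x ∈ Finset.range k, ind a (N + 1 + x) / ((N + 1 + x : ℕ) : ℝ) ^ (1 + δ)
            ≤ ∑ n ∈ Finset.range k, 1 / ((N + n + 1 : ℕ) : ℝ) ^ (1 + δ) := by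
              refine Finset.sum_le_sum fun n _ => ?_
              rw [show N + 1 + n = N + n + 1 by ring]
              have := ind_le_one a (N + n + 1)
              gcongr
          _ ≤ (1 / δ) * (1 / (N : ℝ) ^ δ - 1 / ((N + k : ℕ) : ℝ) ^ δ) := tail_sum hδ0 hN1 k
          _ ≤ (1 / δ) * (1 / (N : ℝ) ^ δ) := by
              gcongr
              have : 0 ≤ 1 / ((N + k : ℕ) : ℝ) ^ δ := by positivity
              linarith
          _ ≤ 1 := htail
  linarith

end Pool.Agent.Lib.MP_9aa437_nt
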